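import Pool.Agent.TH970.Reflect

/-! Future supremum of a path with drift `-1/2`: deterministic facts. -/

namespace Pool.Agent.N704.RS

open MeasureTheory ProbabilityTheory Set Filter Topology Pool.Agent.TH970
open scoped ENNReal NNReal

/-- drifted path -/
noncomputable def yy (w : ℝ≥0 → ℝ) (s : ℝ≥0) : ℝ := w s - (s:ℝ) / 2

/-- future supremum -/
noncomputable def hh (w : ℝ≥0 → ℝ) (t : ℝ≥0) : ℝ := ⨆ n, yy w (t + dq n)

/-- good paths -/
def Good (w : ℝ≥0 → ℝ) : Prop := BddAbove (range (yy w))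

lemma measurable_yy (t : ℝ≥0) : Measurable (fun w : ℝ≥0 → ℝ => yy w t) := by
  unfold yy
  exact (measurable_pi_apply t).sub_const _

lemma measurable_yy' : Measurable (fun w : ℝ≥0 → ℝ => yy w) :=
  measurable_pi_iff.2 measurable_yy

lemma measurable_hh (t : ℝ≥0) : Measurable (fun w : ℝ≥0 → ℝ => hh w t) := by
  unfold hh
  exact Measurable.iSup fun n => measurable_yy _

lemma continuous_yy {w : ℝ≥0 → ℝ} (hw : Continuous w) : Continuous (yy w) := by
  unfold yy
  exact hw.sub ((NNReal.continuous_coe).div_const 2)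

section
variable {w : ℝ≥0 → ℝ}

lemma bdd_hh (hg : Good w) (t : ℝ≥0) : BddAbove (range fun s => yy w (t + s)) := by
  refine hg.mono ?_
  rintro _ ⟨s, rfl⟩
  exact ⟨_, rfl⟩

lemma bdd_hh' (hg : Good w) (t : ℝ≥0) : BddAbove (range fun n => yy w (t + dq n)) := by
  refine hg.mono ?_
  rintro _ ⟨s, rfl⟩
  exact ⟨_, rfl⟩

lemma le_hh (hw : Continuous w) (hg : Good w) {t s : ℝ≥0} (h : t ≤ s) : yy w s ≤ hh w t := by
  have hc : Continuous (fun s => yy w (t + s)) :=
    (continuous_yy hw).comp (continuous_const.add continuous_id)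
  have := le_iSup_dense dense_dq hc (bdd_hh hg t) (s - t)
  rwa [add_tsub_cancel_of_le h] at this

lemma hh_le {t : ℝ≥0} {c : ℝ} (h : ∀ s, t ≤ s → yy w s ≤ c) : hh w t ≤ c :=
  ciSup_le fun _ => h _ le_self_add

lemma hh_anti (hw : Continuous w) (hg : Good w) {s t : ℝ≥0} (h : s ≤ t) : hh w t ≤ hh w s :=
  hh_le fun _ hu => le_hh hw hg (h.trans hu)

lemma hh_eq_max (hw : Continuous w) (hg : Good w) {s t : ℝ≥0} (h : s ≤ t) :
    hh w s = max (mx (yy w) s t) (hh w t) := by
  apply le_antisymm
  · refine hh_le fun u hu => ?_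
    rcases le_total u t with h1 | h1
    · exact (le_mx (continuous_yy hw) hu h1).trans (le_max_left _ _)
    · exact (le_hh hw hg h1).trans (le_max_right _ _)
  · refine max_le ?_ (hh_anti hw hg h)
    exact mx_le h fun u h1 _ => le_hh hw hg h1

lemma hh_bad (hw : Continuous w) (hg : ¬ Good w) (t : ℝ≥0) : hh w t = 0 := by
  unfold hh
  apply Real.iSup_of_not_bddAbove
  intro hb
  apply hg
  obtain ⟨C, hC⟩ := hb
  have hcl : IsClosed {s : ℝ≥0 | yy w (t + s) ≤ C} :=
    isClosed_le ((continuous_yy hw).comp (continuous_const.add continuous_id)) continuous_const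
  have h1 : range dq ⊆ {s : ℝ≥0 | yy w (t + s) ≤ C} := by
    rintro _ ⟨n, rfl⟩
    exact hC ⟨n, rfl⟩
  have h2 := closure_minimal h1 hcl
  rw [dense_dq.closure_range] at h2
  obtain ⟨D, hD⟩ := (isCompact_Icc (a := (0:ℝ≥0)) (b := t)).image (continuous_yy hw) |>.bddAbove
  refine ⟨max C D, ?_⟩
  rintro _ ⟨s, rfl⟩
  rcases le_total t s with h3 | h3
  · have := h2 (mem_univ (s - t))
    simp only [Set.mem_ofPred_eq, add_tsub_cancel_of_le h3] at this
    exact this.trans (le_max_left _ _)
  · exact (hD ⟨s, ⟨zero_le, h3⟩, rfl⟩).trans (le_max_right _ _)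

/-- oscillation bound -/
lemma hh_sub_le (hw : Continuous w) (hg : Good w) {s t : ℝ≥0} (h : s ≤ t) {e : ℝ} (he : 0 ≤ e)
    (ho : ∀ u, s ≤ u → u ≤ t → yy w u ≤ yy w t + e) : hh w s ≤ hh w t + e := by
  rw [hh_eq_max hw hg h]
  refine max_le (mx_le h fun u h1 h2 => ?_) (by linarith)
  have := le_hh hw hg (le_refl t)
  linarith [ho u h1 h2]

lemma continuous_hh (hw : Continuous w) : Continuous (hh w) := by
  by_cases hg : Good w
  swap
  · have : hh w = fun _ => 0 := funext fun t => hh_bad hw hg t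
    rw [this]; exact continuous_const
  rw [continuous_iff_continuousAt]
  intro t
  rw [Metric.continuousAt_iff]
  intro ε hε
  have hc := (continuous_yy hw).continuousAt (x := t)
  rw [Metric.continuousAt_iff] at hc
  obtain ⟨δ, hδ, hδ'⟩ := hc (ε / 4) (by linarith)
  refine ⟨δ, hδ, fun {s} hs => ?_⟩
  rw [Real.dist_eq]
  have key : ∀ u, dist u t < δ → |yy w u - yy w t| < ε / 4 := fun u hu => by
    have := hδ' hu
    rwa [Real.dist_eq] at this
  rcases le_total s t with h | h
  · have h1 : hh w s ≤ hh w t + ε / 2 := by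
      refine hh_sub_le hw hg h (by linarith) fun u h1 h2 => ?_
      have h3 : dist u t < δ := by
        rw [NNReal.dist_eq] at hs ⊢
        rw [abs_lt] at hs ⊢
        have a1 : (s:ℝ) ≤ u := by exact_mod_cast h1
        have a2 : (u:ℝ) ≤ t := by exact_mod_cast h2
        constructor <;> linarith
      have := (abs_lt.1 (key u h3)).2
      linarith
    have h2 := hh_anti hw hg h
    rw [abs_lt]; constructor <;> linarith
  · have h1 : hh w t ≤ hh w s + ε / 2 := by
      refine hh_sub_le hw hg h (by linarith) fun u h1 h2 => ?_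
      have h3 : dist u t < δ := by
        rw [NNReal.dist_eq] at hs ⊢
        rw [abs_lt] at hs ⊢
        have a1 : (t:ℝ) ≤ u := by exact_mod_cast h1
        have a2 : (u:ℝ) ≤ s := by exact_mod_cast h2
        constructor <;> linarith
      have b1 := (abs_lt.1 (key u h3)).2
      have b2 := (abs_lt.1 (key s hs)).1
      linarith
    have h2 := hh_anti hw hg h
    rw [abs_lt]; constructor <;> linarith

/-- local constancy off the contact set -/
lemma hh_locconst (hw : Continuous w) {t : ℝ≥0} (h : yy w t < hh w t) (hg : Good w) :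
    ∃ δ > 0, ∀ s, dist s t < δ → hh w s = hh w t := by
  set e := (hh w t - yy w t) / 3 with he
  have he0 : 0 < e := by rw [he]; linarith
  have h1 := (continuous_yy hw).continuousAt (x := t)
  have h2 := (continuous_hh hw).continuousAt (x := t)
  rw [Metric.continuousAt_iff] at h1 h2
  obtain ⟨δ1, hδ1, h1'⟩ := h1 e he0
  obtain ⟨δ2, hδ2, h2'⟩ := h2 e he0
  refine ⟨min δ1 δ2, lt_min hδ1 hδ2, fun s hs => ?_⟩
  have k1 : ∀ u, dist u t < δ1 → yy w u < yy w t + e := fun u hu => by
    have := h1' hu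
    rw [Real.dist_eq, abs_lt] at this
    linarith [this.2]
  have k2 : hh w t - e < hh w s := by
    have := h2' (lt_of_lt_of_le hs (min_le_right _ _))
    rw [Real.dist_eq, abs_lt] at this
    linarith [this.1]
  have k3 : yy w t + e < hh w t - e := by rw [he]; linarith
  have hs1 : dist s t < δ1 := lt_of_lt_of_le hs (min_le_left _ _)
  rcases le_total s t with h | h
  · rw [hh_eq_max hw hg h]
    apply max_eq_right
    refine mx_le h fun u h3 h4 => ?_
    have h5 : dist u t < δ1 := by
      rw [NNReal.dist_eq] at hs1 ⊢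
      rw [abs_lt] at hs1 ⊢
      have a1 : (s:ℝ) ≤ u := by exact_mod_cast h3
      have a2 : (u:ℝ) ≤ t := by exact_mod_cast h4
      constructor <;> linarith
    linarith [k1 u h5]
  · rw [hh_eq_max hw hg h]
    symm
    apply max_eq_right
    refine mx_le h fun u h3 h4 => ?_
    have h5 : dist u t < δ1 := by
      rw [NNReal.dist_eq] at hs1 ⊢
      rw [abs_lt] at hs1 ⊢
      have a1 : (t:ℝ) ≤ u := by exact_mod_cast h3
      have a2 : (u:ℝ) ≤ s := by exact_mod_cast h4
      constructor <;> linarith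
    linarith [k1 u h5]

end

lemma yy_cat {b s : ℝ≥0} {w z : ℝ≥0 → ℝ} : yy (cat b w z) (b + s) = yy w b + yy z s := by
  unfold yy
  rw [cat_add]
  push_cast
  ring

lemma hh_cat {b : ℝ≥0} {w z : ℝ≥0 → ℝ} (hg : Good z) (t : ℝ≥0) :
    hh (cat b w z) (b + t) = yy w b + hh z t := by
  unfold hh
  have : (fun n => yy (cat b w z) (b + t + dq n)) = fun n => yy w b + yy z (t + dq n) := by
    funext n
    rw [add_assoc, yy_cat]
  rw [this]
  exact (add_ciSup (bdd_hh' hg t) (yy w b)).symm

lemma yy_cat_left {b s : ℝ≥0} {w z : ℝ≥0 → ℝ} (hz : z 0 = 0) (h : s ≤ b) :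
    yy (cat b w z) s = yy w s := by
  unfold yy
  rw [cat_left hz h]

lemma mx_cat_left {b a c : ℝ≥0} {w z : ℝ≥0 → ℝ} (hz : z 0 = 0) (hab : a ≤ c) (h : c ≤ b) :
    mx (yy (cat b w z)) a c = mx (yy w) a c := by
  unfold mx
  have : (fun n => yy (cat b w z) (max a (min (dq n) c))) =
      fun n => yy w (max a (min (dq n) c)) := by
    funext n
    exact yy_cat_left hz ((max_le hab (min_le_right _ _)).trans h)
  rw [this]

end Pool.Agent.N704.RS
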