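import Pool.Agent.N704.RS.A

/-! Markov property and optional stopping at the first passage time of the drifted path. -/

namespace Pool.Agent.N704.RS

open MeasureTheory ProbabilityTheory Set Filter Topology Pool.Agent.TH970
open scoped ENNReal NNReal

variable {Ω : Type*} [MeasurableSpace Ω] {P : Measure Ω} [IsProbabilityMeasure P]
  {X : ℝ≥0 → Ω → ℝ}

lemma measurable_catX (hX : CBM P X) (b : ℝ≥0) :
    Measurable (fun q : Ω × Ω => cat b (path X q.1) (path X q.2)) :=
  (measurable_cat b).comp ((hX.mpath.comp measurable_fst).prodMk (hX.mpath.comp measurable_snd))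

lemma map_cat (hX : CBM P X) (b : ℝ≥0) :
    (P.prod P).map (fun q : Ω × Ω => cat b (path X q.1) (path X q.2)) = P.map (path X) := by
  ext S hS
  rw [Measure.map_apply (measurable_catX hX b) hS, Measure.map_apply hX.mpath hS,
    Measure.prod_apply ((measurable_catX hX b) hS)]
  exact prob_cat hX b hS

lemma integral_cat (hX : CBM P X) (b : ℝ≥0) {F : (ℝ≥0 → ℝ) → ℝ} (hF : Measurable F)
    (hi : Integrable (fun ω => F (path X ω)) P) :
    ∫ ω, F (path X ω) ∂P = ∫ ω, ∫ ω', F (cat b (path X ω) (path X ω')) ∂P ∂P := by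
  have h1 : Integrable F (P.map (path X)) :=
    (integrable_map_measure hF.aestronglyMeasurable hX.mpath.aemeasurable).2 hi
  rw [← map_cat hX b] at h1
  have h2 := (integrable_map_measure hF.aestronglyMeasurable
    (measurable_catX hX b).aemeasurable).1 h1
  calc ∫ ω, F (path X ω) ∂P = ∫ w, F w ∂(P.map (path X)) :=
        (integral_map hX.mpath.aemeasurable hF.aestronglyMeasurable).symm
    _ = ∫ w, F w ∂((P.prod P).map (fun q : Ω × Ω => cat b (path X q.1) (path X q.2))) := by
        rw [map_cat hX b]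
    _ = ∫ q, F (cat b (path X q.1) (path X q.2)) ∂(P.prod P) :=
        integral_map (measurable_catX hX b).aemeasurable hF.aestronglyMeasurable
    _ = _ := integral_prod _ h2

lemma integrable_cat (hX : CBM P X) (b : ℝ≥0) {F : (ℝ≥0 → ℝ) → ℝ} (hF : Measurable F)
    (hi : Integrable (fun ω => F (path X ω)) P) :
    Integrable (fun q : Ω × Ω => F (cat b (path X q.1) (path X q.2))) (P.prod P) := by
  have h1 : Integrable F (P.map (path X)) :=
    (integrable_map_measure hF.aestronglyMeasurable hX.mpath.aemeasurable).2 hi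
  rw [← map_cat hX b] at h1
  exact (integrable_map_measure hF.aestronglyMeasurable
    (measurable_catX hX b).aemeasurable).1 h1

/-- passage sets of paths -/
def DD (c : ℝ) (u : ℝ≥0) : Set (ℝ≥0 → ℝ) := {w | c ≤ mx (yy w) 0 u}

lemma measurableSet_DD (c : ℝ) (u : ℝ≥0) : MeasurableSet (DD c u) :=
  measurableSet_le measurable_const ((measurable_mx 0 u).comp measurable_yy')

lemma DD_cat {c : ℝ} {u b : ℝ≥0} (h : u ≤ b) {w z : ℝ≥0 → ℝ} (hz : z 0 = 0) :
    cat b w z ∈ DD c u ↔ w ∈ DD c u := by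
  unfold DD
  simp only [Set.mem_ofPred_eq]
  rw [mx_cat_left hz zero_le h]

lemma mem_DD {c : ℝ} {u : ℝ≥0} {w : ℝ≥0 → ℝ} (hw : Continuous w) :
    w ∈ DD c u ↔ ∃ s, s ≤ u ∧ c ≤ yy w s := by
  unfold DD
  simp only [Set.mem_ofPred_eq]
  constructor
  · intro h
    obtain ⟨s, -, hs2, hs3⟩ := exists_mx (continuous_yy hw) (zero_le (a := u))
    exact ⟨s, hs2, by rw [← hs3]; exact h⟩
  · rintro ⟨s, hs, h⟩
    exact h.trans (le_mx (continuous_yy hw) zero_le hs)

/-- martingale property on past events -/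
lemma past_event (hX : CBM P X) {h u : ℝ≥0} (hu : u ≤ h) (v : ℝ≥0 → ℝ → ℝ)
    (hv : Continuous (fun q : ℝ≥0 × ℝ => v q.1 q.2))
    (hheat : ∀ u ≤ h, ∀ x, ∫ ω, v h (x + X (h - u) ω) ∂P = v u x)
    (hi : Integrable (fun ω => v h (X h ω)) P)
    {S : Set (ℝ≥0 → ℝ)} (hS : MeasurableSet S)
    (hSc : ∀ w z : ℝ≥0 → ℝ, z 0 = 0 → (cat u w z ∈ S ↔ w ∈ S)) :
    ∫ ω in path X ⁻¹' S, v h (X h ω) ∂P = ∫ ω in path X ⁻¹' S, v u (X u ω) ∂P := by
  have hSm : MeasurableSet (path X ⁻¹' S) := hX.mpath hS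
  rw [← integral_indicator hSm, ← integral_indicator hSm]
  set F : (ℝ≥0 → ℝ) → ℝ := S.indicator (fun w => v h (w h)) with hF
  have hvm : Measurable (fun w : ℝ≥0 → ℝ => v h (w h)) := by
    have : Continuous (fun x : ℝ => v h x) := hv.comp (continuous_const.prodMk continuous_id)
    exact this.measurable.comp (measurable_pi_apply h)
  have hFm : Measurable F := hvm.indicator hS
  have e1 : (fun ω => F (path X ω)) = (path X ⁻¹' S).indicator (fun ω => v h (X h ω)) := rfl
  have hFi : Integrable (fun ω => F (path X ω)) P := by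
    rw [e1]; exact hi.indicator hSm
  have e2 := integral_cat hX u hFm hFi
  rw [e1] at e2
  rw [e2]
  refine integral_congr_ae (ae_of_all _ fun ω => ?_)
  simp only [hF]
  have hz : ∀ ω', path X ω' 0 = 0 := fun ω' => hX.zero ω'
  by_cases hω : path X ω ∈ S
  · have e3 : ∀ ω', S.indicator (fun w => v h (w h)) (cat u (path X ω) (path X ω')) =
        v h (X u ω + X (h - u) ω') := fun ω' => by
      rw [indicator_of_mem ((hSc _ _ (hz ω')).2 hω), cat_right hu]
      rfl
    rw [integral_congr_ae (ae_of_all _ e3), hheat u hu]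
    rw [indicator_of_mem (show ω ∈ path X ⁻¹' S from hω)]
  · have e3 : ∀ ω', S.indicator (fun w => v h (w h)) (cat u (path X ω) (path X ω')) = 0 :=
      fun ω' => indicator_of_notMem (fun hcon => hω ((hSc _ _ (hz ω')).1 hcon)) _
    rw [integral_congr_ae (ae_of_all _ e3), integral_zero,
      indicator_of_notMem (show ω ∉ path X ⁻¹' S from hω)]

/-- grid -/
noncomputable def gr (h : ℝ≥0) (n k : ℕ) : ℝ≥0 := (k : ℝ≥0) * (h / ((n + 1 : ℕ) : ℝ≥0))

lemma gr_zero (h : ℝ≥0) (n : ℕ) : gr h n 0 = 0 := by simp [gr]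

lemma gr_last (h : ℝ≥0) (n : ℕ) : gr h n (n + 1) = h := by
  unfold gr
  exact mul_div_cancel₀ h (by positivity)

lemma gr_mono (h : ℝ≥0) (n : ℕ) : Monotone (gr h n) := by
  intro a b hab
  unfold gr
  gcongr

lemma gr_succ (h : ℝ≥0) (n k : ℕ) : (gr h n (k + 1) : ℝ) = gr h n k + h / ((n : ℝ) + 1) := by
  unfold gr
  push_cast
  ring

lemma sum_sdiff {g : Ω → ℝ} {D : ℕ → Set Ω} (hD : Monotone D) (hDm : ∀ k, MeasurableSet (D k))
    (hg : Integrable g P) (n : ℕ) :
    ∫ ω in D n, g ω ∂P = ∫ ω in D 0, g ω ∂P + ∑ k ∈ Finset.range n, ∫ ω in D (k + 1) \ D k, g ω ∂P := by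
  induction n with
  | zero => simp
  | succ n ih =>
    rw [Finset.sum_range_succ, ← add_assoc, ← ih]
    have h1 : D (n + 1) = D n ∪ (D (n + 1) \ D n) := by
      rw [union_sdiff_self, union_eq_self_of_subset_left (hD (Nat.le_succ n))]
    nth_rewrite 1 [h1]
    exact setIntegral_union disjoint_sdiff_self_right ((hDm _).diff (hDm _))
      hg.integrableOn hg.integrableOn

/-- Optional stopping at the first passage time of `W_t - t/2` over `c`. -/
theorem os (hX : CBM P X) {h : ℝ≥0} {c : ℝ} (hc : 0 < c) (v : ℝ≥0 → ℝ → ℝ)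
    (hv : Continuous (fun q : ℝ≥0 × ℝ => v q.1 q.2))
    (hheat : ∀ u ≤ h, ∀ x, ∫ ω, v h (x + X (h - u) ω) ∂P = v u x) (a : ℝ)
    (hva : ∀ t ≤ h, v t (c + (t:ℝ) / 2) = a) (D : Ω → ℝ) (hD : Integrable D P)
    (hdom : ∀ ω, ∀ t ≤ h, |v t (X t ω)| ≤ D ω) :
    ∫ ω in path X ⁻¹' DD c h, v h (X h ω) ∂P = a * P.real (path X ⁻¹' DD c h) := by
  have hvt : ∀ t, Measurable (fun ω => v t (X t ω)) := fun t => by
    have : Continuous (fun x : ℝ => v t x) := hv.comp (continuous_const.prodMk continuous_id)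
    exact this.measurable.comp (hX.meas t)
  have hvi : ∀ t ≤ h, Integrable (fun ω => v t (X t ω)) P := fun t ht =>
    hD.mono' (hvt t).aestronglyMeasurable (ae_of_all _ fun ω => by
      rw [Real.norm_eq_abs]; exact hdom ω t ht)
  set B : ℕ → ℕ → Set Ω := fun n k => path X ⁻¹' DD c (gr h n k) with hB
  have hBm : ∀ n k, MeasurableSet (B n k) := fun n k => hX.mpath (measurableSet_DD _ _)
  have hBmono : ∀ n, Monotone (B n) := by
    intro n k l hkl ω hω
    have h1 := (mem_DD (hX.cont ω)).1 hω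
    obtain ⟨s, hs1, hs2⟩ := h1
    exact (mem_DD (hX.cont ω)).2 ⟨s, hs1.trans (gr_mono h n hkl), hs2⟩
  have hB0 : ∀ n, B n 0 = ∅ := by
    intro n
    ext ω
    simp only [mem_empty_iff_false, iff_false]
    intro hω
    obtain ⟨s, hs1, hs2⟩ := (mem_DD (hX.cont ω)).1 hω
    rw [gr_zero] at hs1
    have : s = 0 := le_antisymm hs1 zero_le
    rw [this] at hs2
    unfold yy at hs2
    rw [hX.path_zero ω] at hs2
    simp at hs2
    linarith
  have hBlast : ∀ n, B n (n + 1) = path X ⁻¹' DD c h := fun n => by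
    simp only [hB, gr_last]
  have hgle : ∀ n k, k ≤ n + 1 → gr h n k ≤ h := fun n k hk => by
    have := gr_mono h n hk
    rwa [gr_last] at this
  -- the stopped value
  set R : ℕ → Ω → ℝ := fun n ω => ∑ k ∈ Finset.range (n + 1),
    (B n (k + 1) \ B n k).indicator (fun ω => v (gr h n (k + 1)) (X (gr h n (k + 1)) ω)) ω with hR
  have hmain : ∀ n, ∫ ω in path X ⁻¹' DD c h, v h (X h ω) ∂P = ∫ ω, R n ω ∂P := by
    intro n
    rw [← hBlast n, sum_sdiff (hBmono n) (hBm n) (hvi h le_rfl) (n + 1), hB0, setIntegral_empty,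
      zero_add]
    simp only [hR]
    rw [integral_finset_sum]
    · refine Finset.sum_congr rfl fun k hk => ?_
      have hk' : k + 1 ≤ n + 1 := Nat.succ_le_iff.2 (Finset.mem_range.1 hk)
      rw [integral_indicator ((hBm n _).diff (hBm n _))]
      have e : B n (k + 1) \ B n k = path X ⁻¹' (DD c (gr h n (k + 1)) \ DD c (gr h n k)) := rfl
      rw [e]
      refine past_event hX (hgle n _ hk') v hv hheat (hvi h le_rfl)
        ((measurableSet_DD _ _).diff (measurableSet_DD _ _)) fun w z hz => ?_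
      rw [mem_diff, mem_diff, DD_cat le_rfl hz, DD_cat (gr_mono h n (Nat.le_succ k)) hz]
    · intro k hk
      have hk' : k + 1 ≤ n + 1 := Nat.succ_le_iff.2 (Finset.mem_range.1 hk)
      exact (hvi _ (hgle n _ hk')).indicator ((hBm n _).diff (hBm n _))
  -- value of R
  have hRval : ∀ n ω, ω ∈ path X ⁻¹' DD c h → ∃ k, k ≤ n ∧ ω ∈ B n (k + 1) ∧ ω ∉ B n k ∧
      R n ω = v (gr h n (k + 1)) (X (gr h n (k + 1)) ω) := by
    intro n ω hω
    classical
    have hex : ∃ k, ω ∈ B n k := ⟨n + 1, by rw [hBlast]; exact hω⟩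
    set m := Nat.find hex with hm
    have hm1 : ω ∈ B n m := Nat.find_spec hex
    have hm0 : m ≠ 0 := by
      intro h0
      rw [h0, hB0] at hm1
      exact hm1
    obtain ⟨k, hk⟩ := Nat.exists_eq_succ_of_ne_zero hm0
    have hk1 : ω ∉ B n k := Nat.find_min hex (by rw [← hm, hk]; exact Nat.lt_succ_self k)
    have hk2 : ω ∈ B n (k + 1) := by rw [hk] at hm1; exact hm1
    have hkn : k ≤ n := by
      by_contra hcon
      push Not at hcon
      apply hk1
      apply hBmono n (Nat.succ_le_of_lt hcon)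
      rw [hBlast]; exact hω
    refine ⟨k, hkn, hk2, hk1, ?_⟩
    simp only [hR]
    rw [Finset.sum_eq_single k]
    · rw [indicator_of_mem (show ω ∈ B n (k + 1) \ B n k from ⟨hk2, hk1⟩)]
    · intro j _ hjk
      apply indicator_of_notMem
      rintro ⟨h1, h2⟩
      rcases lt_or_gt_of_ne hjk with h3 | h3
      · exact hk1 (hBmono n (Nat.succ_le_of_lt h3) h1)
      · exact h2 (hBmono n (Nat.succ_le_of_lt h3) hk2)
    · intro hcon
      exact absurd (Finset.mem_range.2 (Nat.lt_succ_of_le hkn)) hcon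
  have hRzero : ∀ n ω, ω ∉ path X ⁻¹' DD c h → R n ω = 0 := by
    intro n ω hω
    simp only [hR]
    refine Finset.sum_eq_zero fun k hk => ?_
    apply indicator_of_notMem
    rintro ⟨h1, -⟩
    apply hω
    rw [← hBlast n]
    exact hBmono n (Nat.succ_le_iff.2 (Finset.mem_range.1 hk)) h1
  have hRm : ∀ n, Measurable (R n) := fun n =>
    Finset.measurable_sum _ fun k _ => (hvt _).indicator ((hBm n _).diff (hBm n _))
  have hRD : ∀ n ω, ‖R n ω‖ ≤ D ω := by
    intro n ω
    by_cases hω : ω ∈ path X ⁻¹' DD c h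
    · obtain ⟨k, hk, -, -, h3⟩ := hRval n ω hω
      rw [h3, Real.norm_eq_abs]
      exact hdom ω _ (hgle n _ (Nat.succ_le_succ hk))
    · rw [hRzero n ω hω, norm_zero]
      exact (abs_nonneg _).trans (hdom ω 0 zero_le)
  have hlim : ∀ ω, Tendsto (fun n => R n ω) atTop
      (𝓝 ((path X ⁻¹' DD c h).indicator (fun _ => a) ω)) := by
    intro ω
    by_cases hω : ω ∈ path X ⁻¹' DD c h
    swap
    · rw [indicator_of_notMem hω]
      have : (fun n => R n ω) = fun _ => 0 := funext fun n => hRzero n ω hω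
      rw [this]; exact tendsto_const_nhds
    rw [indicator_of_mem hω]
    have hcont := hX.cont ω
    -- first passage time
    set T : Set ℝ≥0 := {s | c ≤ yy (path X ω) s} with hT
    have hTc : IsClosed T := isClosed_le continuous_const (continuous_yy hcont)
    have hTne : T.Nonempty := by
      obtain ⟨s, -, hs⟩ := (mem_DD hcont).1 hω
      exact ⟨s, hs⟩
    set t0 := sInf T with ht0
    have ht0m : t0 ∈ T := hTc.csInf_mem hTne (OrderBot.bddBelow T)
    have ht0le : ∀ s ∈ T, t0 ≤ s := fun s hs => csInf_le (OrderBot.bddBelow T) hs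
    have ht0h : t0 ≤ h := by
      obtain ⟨s, hs1, hs⟩ := (mem_DD hcont).1 hω
      exact (ht0le s hs).trans hs1
    have ht0v : yy (path X ω) t0 = c := by
      apply le_antisymm _ ht0m
      by_contra hcon
      push Not at hcon
      have h0 : yy (path X ω) 0 < c := by
        unfold yy; rw [hX.path_zero ω]; simp; exact hc
      have hcn : ContinuousOn (yy (path X ω)) (Icc 0 t0) := (continuous_yy hcont).continuousOn
      obtain ⟨s, hs1, hs2⟩ := intermediate_value_Ioo (zero_le (a := t0)) hcn ⟨h0, hcon⟩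
      have : s ∈ T := hs2.ge
      exact absurd (ht0le s this) (not_le.2 hs1.2)
    have hva0 : v t0 (X t0 ω) = a := by
      rw [← hva t0 ht0h]
      congr 1
      have : X t0 ω - (t0:ℝ) / 2 = c := ht0v
      linarith
    have hcv : Continuous (fun s => v s (X s ω)) := hv.comp (continuous_id.prodMk hcont)
    rw [Metric.tendsto_atTop]
    intro ε hε
    have hca := hcv.continuousAt (x := t0)
    rw [Metric.continuousAt_iff] at hca
    obtain ⟨δ, hδ, hδ'⟩ := hca ε hε
    obtain ⟨N, hN⟩ := exists_nat_gt ((h:ℝ) / δ)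
    refine ⟨N, fun n hn => ?_⟩
    obtain ⟨k, hk, h1, h2, h3⟩ := hRval n ω hω
    rw [h3, ← hva0]
    apply hδ'
    rw [NNReal.dist_eq]
    have b1 : t0 ≤ gr h n (k + 1) := by
      obtain ⟨s, hs1, hs2⟩ := (mem_DD hcont).1 h1
      exact (ht0le s hs2).trans hs1
    have b2 : gr h n k < t0 := by
      by_contra hcon
      push Not at hcon
      exact h2 ((mem_DD hcont).2 ⟨t0, hcon, ht0m⟩)
    have b3 := gr_succ h n k
    have b4 : (h:ℝ) / ((n:ℝ) + 1) < δ := by
      rw [div_lt_iff₀ (by positivity)]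
      have : (h:ℝ) / δ < (n:ℝ) + 1 := by
        have : (N:ℝ) ≤ n := by exact_mod_cast hn
        linarith
      rw [div_lt_iff₀ hδ] at this
      linarith
    have b1' : (t0:ℝ) ≤ gr h n (k + 1) := by exact_mod_cast b1
    have b2' : (gr h n k : ℝ) < t0 := by exact_mod_cast b2
    rw [abs_lt]
    constructor <;> linarith
  have hfin := tendsto_integral_of_dominated_convergence (μ := P) (F := R)
    (f := (path X ⁻¹' DD c h).indicator (fun _ => a)) D
    (fun n => (hRm n).aestronglyMeasurable) hD (fun n => ae_of_all _ (hRD n))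
    (ae_of_all _ hlim)
  have hconst : (fun n => ∫ ω, R n ω ∂P) = fun _ => ∫ ω in path X ⁻¹' DD c h, v h (X h ω) ∂P :=
    funext fun n => (hmain n).symm
  rw [hconst] at hfin
  have := tendsto_nhds_unique hfin tendsto_const_nhds
  rw [← this, integral_indicator_const _ (hX.mpath (measurableSet_DD _ _)), smul_eq_mul, mul_comm]

end Pool.Agent.N704.RS
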