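import Pool.Agent.N704.RS.B

/-! Gaussian moments, the two space-time harmonic functions, domination, law of the supremum. -/

namespace Pool.Agent.N704.RS

open MeasureTheory ProbabilityTheory Set Filter Topology Pool.Agent.TH970
open scoped ENNReal NNReal

variable {Ω : Type*} [MeasurableSpace Ω] {P : Measure Ω} [IsProbabilityMeasure P]
  {X : ℝ≥0 → Ω → ℝ}

lemma law_X (hX : CBM P X) (d : ℝ≥0) : P.map (X d) = gaussianReal 0 d :=
  (hX.pre.hasLaw_eval d).map_eq

lemma int_exp (hX : CBM P X) (t : ℝ) (d : ℝ≥0) : Integrable (fun ω => Real.exp (t * X d ω)) P := by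
  have h1 : Integrable (fun x => Real.exp (t * x)) (P.map (X d)) := by
    rw [law_X hX]; exact integrable_exp_mul_gaussianReal t
  exact (integrable_map_measure (by fun_prop) (hX.meas d).aemeasurable).1 h1

lemma int_exp1 (hX : CBM P X) (d : ℝ≥0) : Integrable (fun ω => Real.exp (X d ω)) P := by
  have := int_exp hX 1 d
  simpa using this

lemma mgf_X (hX : CBM P X) (d : ℝ≥0) : mgf (X d) P = fun t => Real.exp (d * t ^ 2 / 2) := by
  funext t
  rw [mgf_gaussianReal (law_X hX d) t]
  simp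

lemma E_exp (hX : CBM P X) (d : ℝ≥0) : ∫ ω, Real.exp (X d ω) ∂P = Real.exp (d / 2) := by
  have := congrFun (mgf_X hX d) 1
  simp only [mgf, one_mul, one_pow, mul_one] at this
  exact this

lemma int_xexp (hX : CBM P X) (d : ℝ≥0) : Integrable (fun ω => X d ω * Real.exp (X d ω)) P := by
  have h2 := (int_exp hX 2 d).add (integrable_const (1:ℝ))
  refine h2.mono' ((hX.meas d).mul (hX.meas d).exp).aestronglyMeasurable (ae_of_all _ fun ω => ?_)
  rw [Real.norm_eq_abs, abs_mul, abs_of_pos (Real.exp_pos _)]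
  simp only [Pi.add_apply]
  set x := X d ω
  rcases le_total 0 x with h | h
  · rw [abs_of_nonneg h]
    have h1 : x ≤ Real.exp x := by linarith [Real.add_one_le_exp x]
    have h3 : Real.exp (2 * x) = Real.exp x * Real.exp x := by rw [← Real.exp_add]; ring_nf
    rw [h3]
    have := mul_le_mul_of_nonneg_right h1 (Real.exp_pos x).le
    linarith
  · rw [abs_of_nonpos h]
    have h1 : -x ≤ Real.exp (-x) := by linarith [Real.add_one_le_exp (-x)]
    have h3 : Real.exp (-x) * Real.exp x = 1 := by rw [← Real.exp_add]; simp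
    have := mul_le_mul_of_nonneg_right h1 (Real.exp_pos x).le
    have h4 := Real.exp_pos (2 * x)
    linarith

lemma E_xexp (hX : CBM P X) (d : ℝ≥0) :
    ∫ ω, X d ω * Real.exp (X d ω) ∂P = d * Real.exp (d / 2) := by
  have hmem : (1:ℝ) ∈ interior (integrableExpSet (X d) P) := by
    have : integrableExpSet (X d) P = Set.univ := by
      ext t
      simp only [mem_univ, iff_true]
      exact int_exp hX t d
    rw [this, interior_univ]; trivial
  have h1 := deriv_mgf hmem
  rw [mgf_X hX d] at h1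
  have h2 : HasDerivAt (fun t : ℝ => Real.exp ((d:ℝ) * t ^ 2 / 2)) ((d:ℝ) * Real.exp ((d:ℝ) / 2)) 1 := by
    have h3 : HasDerivAt (fun t : ℝ => (d:ℝ) * t ^ 2 / 2) (d:ℝ) 1 := by
      have := (((hasDerivAt_pow 2 (1:ℝ)).const_mul (d:ℝ)).div_const 2)
      have e6 : (d:ℝ) * (((2:ℕ):ℝ) * 1 ^ (2 - 1)) / 2 = d := by
        norm_num
      rw [e6] at this
      exact this
    have h4 := h3.exp
    have e5 : Real.exp ((d:ℝ) * 1 ^ 2 / 2) * (d:ℝ) = (d:ℝ) * Real.exp ((d:ℝ) / 2) := by
      rw [one_pow, mul_one, mul_comm]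
    rw [← e5]
    exact h4
  rw [h2.deriv] at h1
  simp only [one_mul] at h1
  exact h1.symm

/-- first space-time harmonic function -/
noncomputable def v1 (t : ℝ≥0) (x : ℝ) : ℝ := Real.exp (x - (t:ℝ) / 2)

/-- second space-time harmonic function -/
noncomputable def v2 (c : ℝ) (t : ℝ≥0) (x : ℝ) : ℝ :=
  -x - 2 + Real.exp (-c) * Real.exp (x - (t:ℝ) / 2) * (2 + 2 * c - x + t)

lemma cont_v1 : Continuous (fun q : ℝ≥0 × ℝ => v1 q.1 q.2) := by
  unfold v1; fun_prop

lemma cont_v2 (c : ℝ) : Continuous (fun q : ℝ≥0 × ℝ => v2 c q.1 q.2) := by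
  unfold v2; fun_prop

lemma heat1 (hX : CBM P X) {h u : ℝ≥0} (hu : u ≤ h) (x : ℝ) :
    ∫ ω, v1 h (x + X (h - u) ω) ∂P = v1 u x := by
  have e : ∀ ω, v1 h (x + X (h - u) ω) = Real.exp (x - (h:ℝ)/2) * Real.exp (X (h-u) ω) := fun ω => by
    unfold v1
    rw [← Real.exp_add]; ring_nf
  rw [integral_congr_ae (ae_of_all _ e), integral_const_mul, E_exp hX, ← Real.exp_add]
  unfold v1
  congr 1
  rw [NNReal.coe_sub hu]
  ring

lemma heat2 (hX : CBM P X) (c : ℝ) {h u : ℝ≥0} (hu : u ≤ h) (x : ℝ) :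
    ∫ ω, v2 c h (x + X (h - u) ω) ∂P = v2 c u x := by
  set d := h - u with hd
  have hdr : (d:ℝ) = h - u := by rw [hd, NNReal.coe_sub hu]
  set K := Real.exp (-c) * Real.exp (x - (h:ℝ)/2) with hK
  have e : ∀ ω, v2 c h (x + X d ω) = (-x - 2) + (-1) * X d ω +
      (K * (2 + 2 * c - x + h)) * Real.exp (X d ω) + (-K) * (X d ω * Real.exp (X d ω)) := fun ω => by
    unfold v2
    have : Real.exp (x + X d ω - (h:ℝ)/2) = Real.exp (x - (h:ℝ)/2) * Real.exp (X d ω) := by
      rw [← Real.exp_add]; ring_nf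
    rw [this, hK]; ring
  have i1 : Integrable (X d) P := hX.pre.integrable_eval d
  have i2 := int_exp1 hX d
  have i3 := int_xexp hX d
  have j0 : Integrable (fun _ : Ω => -x - 2) P := integrable_const _
  have j1 : Integrable (fun ω => (-1) * X d ω) P := i1.const_mul _
  have j2 : Integrable (fun ω => (K * (2 + 2 * c - x + h)) * Real.exp (X d ω)) P := i2.const_mul _
  have j3 : Integrable (fun ω => (-K) * (X d ω * Real.exp (X d ω))) P := i3.const_mul _
  have k1 : Integrable (fun ω => (-x - 2) + (-1) * X d ω) P := j0.add j1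
  have k2 : Integrable (fun ω => (-x - 2) + (-1) * X d ω +
      (K * (2 + 2 * c - x + h)) * Real.exp (X d ω)) P := k1.add j2
  rw [integral_congr_ae (ae_of_all _ e)]
  rw [integral_add k2 j3, integral_add k1 j2, integral_add j0 j1, integral_const_mul,
    integral_const_mul, integral_const_mul, E_exp hX, E_xexp hX]
  have h0 : ∫ ω, X d ω ∂P = 0 := hX.pre.integral_eval d
  rw [h0]
  simp only [integral_const, probReal_univ, smul_eq_mul, one_mul, mul_zero, add_zero]
  unfold v2
  have e2 : Real.exp (x - (u:ℝ)/2) = Real.exp (x - (h:ℝ)/2) * Real.exp (d/2) := by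
    rw [← Real.exp_add, hdr]; ring_nf
  rw [e2, hK, hdr]
  ring

lemma cbm_neg (hX : CBM P X) : CBM P (-X) where
  meas t := (hX.meas t).neg
  cont ω := by
    have : path (-X) ω = fun s => -(path X ω s) := rfl
    rw [this]; exact (hX.cont ω).neg
  zero ω := by
    show -(X 0 ω) = 0
    rw [hX.zero ω, neg_zero]
  pre := hX.pre.neg

lemma mx_nonneg (hX : CBM P X) (T : ℝ≥0) (ω : Ω) : 0 ≤ mx (path X ω) 0 T := by
  have := le_mx (hX.cont ω) (le_refl (0:ℝ≥0)) (zero_le (a := T))
  rwa [hX.path_zero ω] at this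

lemma measurable_mxX (hX : CBM P X) (T : ℝ≥0) : Measurable (fun ω => mx (path X ω) 0 T) :=
  (measurable_mx 0 T).comp hX.mpath

lemma map_mx (hX : CBM P X) {T : ℝ≥0} (hT : 0 < T) :
    P.map (fun ω => mx (path X ω) 0 T) = P.map (fun ω => |X T ω|) := by
  have hm := measurable_mxX hX T
  have hm2 : Measurable (fun ω => |X T ω|) := (hX.meas T).abs
  have : IsFiniteMeasure (P.map (fun ω => mx (path X ω) 0 T)) := by
    have := Measure.isProbabilityMeasure_map (μ := P) hm.aemeasurable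
    infer_instance
  refine Measure.ext_of_Iic _ _ fun x => ?_
  rw [Measure.map_apply hm measurableSet_Iic, Measure.map_apply hm2 measurableSet_Iic]
  rcases le_or_gt 0 x with hx | hx
  · exact mx_law hX hT hx
  · have e1 : (fun ω => mx (path X ω) 0 T) ⁻¹' Iic x = ∅ := by
      ext ω
      simp only [mem_preimage, mem_Iic, mem_empty_iff_false, iff_false, not_le]
      exact hx.trans_le (mx_nonneg hX T ω)
    have e2 : (fun ω => |X T ω|) ⁻¹' Iic x = ∅ := by
      ext ω
      simp only [mem_preimage, mem_Iic, mem_empty_iff_false, iff_false, not_le]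
      exact hx.trans_le (abs_nonneg _)
    rw [e1, e2]

lemma int_exp_mx' (hX : CBM P X) {T : ℝ≥0} (hT : 0 < T) (l : ℝ) :
    Integrable (fun ω => Real.exp (l * mx (path X ω) 0 T)) P := by
  have hm := measurable_mxX hX T
  have hm2 : Measurable (fun ω => |X T ω|) := (hX.meas T).abs
  have h1 : Integrable (fun ω => Real.exp (l * |X T ω|)) P := by
    refine ((int_exp hX l T).add (int_exp hX (-l) T)).mono' ((hm2.const_mul l).exp).aestronglyMeasurable (ae_of_all _ fun ω => ?_)
    rw [Real.norm_eq_abs, abs_of_pos (Real.exp_pos _)]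
    simp only [Pi.add_apply]
    rcases le_total 0 (X T ω) with h | h
    · rw [abs_of_nonneg h]
      linarith [Real.exp_pos (-l * X T ω)]
    · rw [abs_of_nonpos h]
      have : l * -X T ω = -l * X T ω := by ring
      rw [this]
      linarith [Real.exp_pos (l * X T ω)]
  have h2 : Integrable (fun x : ℝ => Real.exp (l * x)) (P.map (fun ω => |X T ω|)) :=
    (integrable_map_measure (by fun_prop) hm2.aemeasurable).2 h1
  rw [← map_mx hX hT] at h2
  exact (integrable_map_measure (by fun_prop) hm.aemeasurable).1 h2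

lemma int_exp_mx (hX : CBM P X) (T : ℝ≥0) {l : ℝ} (hl : 0 ≤ l) :
    Integrable (fun ω => Real.exp (l * mx (path X ω) 0 T)) P := by
  have hT : 0 < T + 1 := by positivity
  refine (int_exp_mx' hX hT l).mono' ?_ (ae_of_all _ fun ω => ?_)
  · exact (((measurable_mxX hX T).const_mul l).exp).aestronglyMeasurable
  · rw [Real.norm_eq_abs, abs_of_pos (Real.exp_pos _)]
    apply Real.exp_le_exp.2
    exact mul_le_mul_of_nonneg_left (mx_mono (hX.cont ω) zero_le le_self_add) hl

/-- dominating function -/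
noncomputable def dom (X : ℝ≥0 → Ω → ℝ) (T : ℝ≥0) (ω : Ω) : ℝ :=
  Real.exp (2 * mx (path X ω) 0 T) + Real.exp (2 * mx (path (-X) ω) 0 T)

lemma int_dom (hX : CBM P X) (T : ℝ≥0) : Integrable (dom X T) P :=
  (int_exp_mx hX T (by norm_num)).add (int_exp_mx (cbm_neg hX) T (by norm_num))

lemma abs_le_max (hX : CBM P X) {T t : ℝ≥0} (ht : t ≤ T) (ω : Ω) :
    X t ω ≤ mx (path X ω) 0 T ∧ -X t ω ≤ mx (path (-X) ω) 0 T :=
  ⟨le_mx (hX.cont ω) zero_le ht, le_mx (w := path (-X) ω) ((cbm_neg hX).cont ω) zero_le ht⟩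

lemma dom_v1 (hX : CBM P X) {T t : ℝ≥0} (ht : t ≤ T) (ω : Ω) : |v1 t (X t ω)| ≤ dom X T ω := by
  unfold v1 dom
  rw [abs_of_pos (Real.exp_pos _)]
  have h1 := (abs_le_max hX ht ω).1
  have h2 := mx_nonneg hX T ω
  have h3 : Real.exp (X t ω - (t:ℝ)/2) ≤ Real.exp (2 * mx (path X ω) 0 T) := by
    apply Real.exp_le_exp.2
    have : (0:ℝ) ≤ t := t.2
    linarith
  linarith [Real.exp_pos (2 * mx (path (-X) ω) 0 T)]

lemma dom_v2 (hX : CBM P X) {c : ℝ} (hc : 0 < c) {T t : ℝ≥0} (ht : t ≤ T) (ω : Ω) :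
    |v2 c t (X t ω)| ≤ (8 + 2 * c + T) * dom X T ω := by
  obtain ⟨h1, h2⟩ := abs_le_max hX ht ω
  have ha := mx_nonneg hX T ω
  have hb := mx_nonneg (cbm_neg hX) T ω
  have hd : dom X T ω = Real.exp (2 * mx (path X ω) 0 T) + Real.exp (2 * mx (path (-X) ω) 0 T) := rfl
  set a := mx (path X ω) 0 T with haa
  set b := mx (path (-X) ω) 0 T with hbb
  set x := X t ω with hx
  set A := Real.exp a with hA
  set B := Real.exp b with hB
  have hAA : Real.exp (2 * a) = A ^ 2 := by rw [hA, ← Real.exp_nat_mul]; norm_num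
  have hBB : Real.exp (2 * b) = B ^ 2 := by rw [hB, ← Real.exp_nat_mul]; norm_num
  have hA1 : 1 ≤ A := Real.one_le_exp ha
  have hB1 : 1 ≤ B := Real.one_le_exp hb
  have haA : a ≤ A := by linarith [Real.add_one_le_exp a]
  have hbB : b ≤ B := by linarith [Real.add_one_le_exp b]
  have ht0 : (0:ℝ) ≤ t := t.2
  have htT : (t:ℝ) ≤ T := by exact_mod_cast ht
  have hxabs : |x| ≤ A + B := by rw [abs_le]; constructor <;> linarith
  have hE : Real.exp (-c) * Real.exp (x - (t:ℝ)/2) ≤ A := by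
    rw [← Real.exp_add, hA]
    apply Real.exp_le_exp.2
    linarith
  have hE0 : 0 < Real.exp (-c) * Real.exp (x - (t:ℝ)/2) := by positivity
  have hM : |2 + 2 * c - x + t| ≤ 2 + 2 * c + T + (A + B) := by
    have := abs_le.1 hxabs
    rw [abs_le]; constructor <;> linarith [this.1, this.2]
  rw [hd, hAA, hBB]
  unfold v2
  calc |-x - 2 + Real.exp (-c) * Real.exp (x - (t:ℝ)/2) * (2 + 2 * c - x + t)|
      ≤ |-x - 2| + |Real.exp (-c) * Real.exp (x - (t:ℝ)/2) * (2 + 2 * c - x + t)| := abs_add_le _ _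
    _ ≤ (A + B + 2) + A * (2 + 2 * c + T + (A + B)) := by
        apply add_le_add
        · have := abs_le.1 hxabs
          rw [abs_le]; constructor <;> linarith [this.1, this.2]
        · rw [abs_mul, abs_of_pos hE0]
          exact mul_le_mul hE hM (abs_nonneg _) (by linarith)
    _ ≤ (8 + 2 * c + T) * (A ^ 2 + B ^ 2) := by
        have hT0 : (0:ℝ) ≤ T := T.2
        have k1 : A ≤ A ^ 2 := by nlinarith
        have k2 : B ≤ B ^ 2 := by nlinarith
        have k3 : A * B ≤ A ^ 2 + B ^ 2 := by nlinarith [sq_nonneg (A - B)]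
        have k4 : A * (2 * c + T) ≤ (2 * c + T) * (A ^ 2 + B ^ 2) := by nlinarith [sq_nonneg B]
        nlinarith [sq_nonneg A, sq_nonneg B]

end Pool.Agent.N704.RS
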