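import Pool.Agent.N704.RS.C

/-! Law of the all-time supremum of `W_t - t/2`. -/

namespace Pool.Agent.N704.RS

open MeasureTheory ProbabilityTheory Set Filter Topology Pool.Agent.TH970
open scoped ENNReal NNReal

variable {Ω : Type*} [MeasurableSpace Ω] {P : Measure Ω} [IsProbabilityMeasure P]
  {X : ℝ≥0 → Ω → ℝ}

lemma int_v1 (hX : CBM P X) (h : ℝ≥0) : Integrable (fun ω => v1 h (X h ω)) P := by
  have hm : Measurable (fun ω => v1 h (X h ω)) := by
    have : Continuous (fun x : ℝ => v1 h x) := cont_v1.comp (continuous_const.prodMk continuous_id)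
    exact this.measurable.comp (hX.meas h)
  exact (int_dom hX h).mono' hm.aestronglyMeasurable (ae_of_all _ fun ω => by
    rw [Real.norm_eq_abs]; exact dom_v1 hX le_rfl ω)

lemma pn (hX : CBM P X) {c : ℝ} (hc : 0 < c) (n : ℝ≥0) :
    Real.exp c * P.real (path X ⁻¹' DD c n) + ∫ ω in (path X ⁻¹' DD c n)ᶜ, v1 n (X n ω) ∂P = 1 := by
  have h1 := os (h := n) hX hc v1 cont_v1 (fun u hu x => heat1 hX hu x) (Real.exp c)
    (fun t _ => by unfold v1; congr 1; ring) (dom X n) (int_dom hX n)
    (fun ω t ht => dom_v1 hX ht ω)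
  rw [← h1, integral_add_compl (hX.mpath (measurableSet_DD _ _)) (int_v1 hX n)]
  have h2 := heat1 hX (zero_le (a := n)) 0
  simp only [tsub_zero, zero_add] at h2
  rw [h2]
  unfold v1
  simp

lemma cheb (hX : CBM P X) {n : ℝ≥0} (hn : 0 < n) :
    P.real {ω | (n:ℝ) / 4 ≤ |X n ω|} ≤ 16 / n := by
  have hn' : (0:ℝ) < n := by exact_mod_cast hn
  have hL2 : MemLp (X n) 2 P := (hX.pre.isGaussianProcess.hasGaussianLaw_eval n).memLp_two
  have h1 := meas_ge_le_variance_div_sq hL2 (c := (n:ℝ)/4) (by positivity)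
  have h0 : ∫ ω, X n ω ∂P = 0 := hX.pre.integral_eval n
  have hv : Var[X n; P] = n := by
    rw [← covariance_self (hX.meas n).aemeasurable, hX.pre.covariance_eval]
    simp
  rw [hv] at h1
  simp only [h0, sub_zero] at h1
  rw [measureReal_def]
  refine ENNReal.toReal_le_of_le_ofReal (by positivity) (h1.trans (ENNReal.ofReal_le_ofReal ?_))
  rw [div_pow, div_div_eq_mul_div]
  apply le_of_eq
  field_simp
  norm_num

lemma rest_le (hX : CBM P X) {c : ℝ} (hc : 0 < c) {n : ℝ≥0} (hn : 0 < n) :
    ∫ ω in (path X ⁻¹' DD c n)ᶜ, v1 n (X n ω) ∂P ≤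
      Real.exp (-(n:ℝ) / 4) + Real.exp c * (16 / n) := by
  set B : Set Ω := {ω | (n:ℝ) / 4 ≤ |X n ω|} with hB
  have hBm : MeasurableSet B := measurableSet_le measurable_const (hX.meas n).abs
  have hDm : MeasurableSet (path X ⁻¹' DD c n)ᶜ := (hX.mpath (measurableSet_DD _ _)).compl
  have hi : Integrable (fun ω => Real.exp (-(n:ℝ)/4) + B.indicator (fun _ => Real.exp c) ω) P :=
    (integrable_const _).add ((integrable_const _).indicator hBm)
  rw [← integral_indicator hDm]
  calc ∫ ω, (path X ⁻¹' DD c n)ᶜ.indicator (fun ω => v1 n (X n ω)) ω ∂P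
      ≤ ∫ ω, (Real.exp (-(n:ℝ)/4) + B.indicator (fun _ => Real.exp c) ω) ∂P := by
        refine integral_mono_ae ((int_v1 hX n).indicator hDm) hi (ae_of_all _ fun ω => ?_)
        by_cases hω : ω ∈ (path X ⁻¹' DD c n)ᶜ
        · rw [indicator_of_mem hω]
          have h1 : X n ω - (n:ℝ)/2 < c := by
            by_contra hcon
            push Not at hcon
            exact hω ((mem_DD (hX.cont ω)).2 ⟨n, le_rfl, hcon⟩)
          by_cases hb : ω ∈ B
          · simp only [indicator_of_mem hb]
            unfold v1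
            have := Real.exp_le_exp.2 h1.le
            linarith [Real.exp_pos (-(n:ℝ)/4)]
          · simp only [indicator_of_notMem hb, add_zero]
            unfold v1
            apply Real.exp_le_exp.2
            simp only [hB, Set.mem_ofPred_eq, not_le] at hb
            have := (abs_lt.1 hb).2
            linarith
        · rw [indicator_of_notMem hω]
          have : 0 ≤ B.indicator (fun _ => Real.exp c) ω :=
            indicator_nonneg (fun _ _ => (Real.exp_pos c).le) ω
          linarith [Real.exp_pos (-(n:ℝ)/4)]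
    _ = Real.exp (-(n:ℝ)/4) + Real.exp c * P.real B := by
        rw [integral_add (integrable_const _) ((integrable_const _).indicator hBm),
          integral_indicator_const _ hBm]
        simp [mul_comm]
    _ ≤ _ := by
        have := cheb hX hn
        have h2 := Real.exp_pos c
        nlinarith [mul_le_mul_of_nonneg_left this h2.le]

lemma rest_nonneg (hX : CBM P X) (c : ℝ) (n : ℝ≥0) :
    0 ≤ ∫ ω in (path X ⁻¹' DD c n)ᶜ, v1 n (X n ω) ∂P :=
  integral_nonneg fun ω => (Real.exp_pos _).le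

/-- paths that pass above `c` at some time -/
def UU (c : ℝ) : Set (ℝ≥0 → ℝ) := ⋃ n : ℕ, DD c (n : ℝ≥0)

lemma mem_UU {c : ℝ} {w : ℝ≥0 → ℝ} (hw : Continuous w) : w ∈ UU c ↔ ∃ s, c ≤ yy w s := by
  unfold UU
  rw [mem_iUnion]
  constructor
  · rintro ⟨n, hn⟩
    obtain ⟨s, -, hs⟩ := (mem_DD hw).1 hn
    exact ⟨s, hs⟩
  · rintro ⟨s, hs⟩
    obtain ⟨n, hn⟩ := exists_nat_ge s
    exact ⟨n, (mem_DD hw).2 ⟨s, hn, hs⟩⟩

lemma measurableSet_UU (c : ℝ) : MeasurableSet (UU c) :=
  MeasurableSet.iUnion fun _ => measurableSet_DD _ _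

lemma prob_UU (hX : CBM P X) {c : ℝ} (hc : 0 < c) :
    P.real (path X ⁻¹' UU c) = Real.exp (-c) := by
  have hmono : Monotone (fun n : ℕ => path X ⁻¹' DD c (n : ℝ≥0)) := by
    intro a b hab ω hω
    obtain ⟨s, hs1, hs2⟩ := (mem_DD (hX.cont ω)).1 hω
    exact (mem_DD (hX.cont ω)).2 ⟨s, hs1.trans (by exact_mod_cast hab), hs2⟩
  have h1 := tendsto_measure_iUnion_atTop (μ := P) hmono
  have h2 : (⋃ n : ℕ, path X ⁻¹' DD c (n : ℝ≥0)) = path X ⁻¹' UU c := by
    unfold UU; rw [preimage_iUnion]
  rw [h2] at h1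
  have h3 : Tendsto (fun n : ℕ => P.real (path X ⁻¹' DD c (n : ℝ≥0))) atTop
      (𝓝 (P.real (path X ⁻¹' UU c))) :=
    (ENNReal.tendsto_toReal (measure_ne_top P _)).comp h1
  -- the other limit
  have h4 : Tendsto (fun n : ℕ => ∫ ω in (path X ⁻¹' DD c (n : ℝ≥0))ᶜ, v1 n (X n ω) ∂P) atTop
      (𝓝 0) := by
    have h5 : Tendsto (fun n : ℕ => Real.exp (-(n:ℝ) / 4) + Real.exp c * (16 / (n:ℝ))) atTop
        (𝓝 (0 + Real.exp c * 0)) := by
      refine Tendsto.add ?_ (Tendsto.const_mul _ (tendsto_const_div_atTop_nhds_zero_nat _))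
      apply Real.tendsto_exp_atBot.comp
      have : (fun n : ℕ => -(n:ℝ)/4) = fun n : ℕ => -((n:ℝ)/4) := by funext n; ring
      rw [this]
      exact tendsto_neg_atTop_atBot.comp (tendsto_natCast_atTop_atTop.atTop_div_const (by norm_num))
    rw [mul_zero, add_zero] at h5
    refine tendsto_of_tendsto_of_tendsto_of_le_of_le' tendsto_const_nhds h5
      (Eventually.of_forall fun n => rest_nonneg hX c _) ?_
    filter_upwards [eventually_gt_atTop 0] with n hn
    have := rest_le hX hc (n := (n:ℝ≥0)) (by exact_mod_cast hn)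
    simpa using this
  have h6 : (fun n : ℕ => P.real (path X ⁻¹' DD c (n : ℝ≥0))) =
      fun n : ℕ => Real.exp (-c) * (1 - ∫ ω in (path X ⁻¹' DD c (n : ℝ≥0))ᶜ, v1 n (X n ω) ∂P) := by
    funext n
    have := pn hX hc (n : ℝ≥0)
    have h7 : Real.exp (-c) * Real.exp c = 1 := by rw [← Real.exp_add]; simp
    have h8 : Real.exp c * P.real (path X ⁻¹' DD c (n : ℝ≥0)) =
        1 - ∫ ω in (path X ⁻¹' DD c (n : ℝ≥0))ᶜ, v1 n (X n ω) ∂P := by linarith
    rw [← h8, ← mul_assoc, h7, one_mul]
  rw [h6] at h3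
  have h9 := (tendsto_const_nhds (x := Real.exp (-c))).mul ((tendsto_const_nhds (x := (1:ℝ))).sub h4)
  have := tendsto_nhds_unique h3 h9
  rw [this]; ring

lemma ae_good (hX : CBM P X) : ∀ᵐ ω ∂P, Good (path X ω) := by
  rw [ae_iff]
  have h1 : ∀ n : ℕ, P {ω | ¬ Good (path X ω)} ≤ ENNReal.ofReal (Real.exp (-((n:ℝ) + 1))) := by
    intro n
    rw [← prob_UU hX (c := (n:ℝ) + 1) (by positivity), ofReal_measureReal]
    apply measure_mono
    intro ω hω
    simp only [Set.mem_ofPred_eq] at hω
    refine (mem_UU (hX.cont ω)).2 ?_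
    by_contra hcon
    push Not at hcon
    apply hω
    refine ⟨(n:ℝ) + 1, ?_⟩
    rintro _ ⟨s, rfl⟩
    exact (hcon s).le
  have h2 : Tendsto (fun n : ℕ => ENNReal.ofReal (Real.exp (-((n:ℝ) + 1)))) atTop (𝓝 0) := by
    rw [← ENNReal.ofReal_zero]
    apply ENNReal.tendsto_ofReal
    apply Real.tendsto_exp_atBot.comp
    apply tendsto_neg_atTop_atBot.comp
    exact tendsto_atTop_add_const_right _ _ tendsto_natCast_atTop_atTop
  exact le_antisymm (ge_of_tendsto' h2 h1) zero_le

lemma mH (hX : CBM P X) (t : ℝ≥0) : Measurable (fun ω => hh (path X ω) t) :=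
  (measurable_hh t).comp hX.mpath

lemma hh_nonneg (hX : CBM P X) : ∀ᵐ ω ∂P, 0 ≤ hh (path X ω) 0 := by
  filter_upwards [ae_good hX] with ω hω
  have := le_hh (hX.cont ω) hω (le_refl (0:ℝ≥0))
  unfold yy at this
  rw [hX.path_zero ω] at this
  simpa using this

lemma prob_le_hh_ge (hX : CBM P X) {c : ℝ} (hc : 0 < c) :
    Real.exp (-c) ≤ P.real {ω | c ≤ hh (path X ω) 0} := by
  rw [← prob_UU hX hc]
  refine ENNReal.toReal_mono (measure_ne_top _ _) (measure_mono_ae ?_)
  filter_upwards [ae_good hX] with ω hω h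
  obtain ⟨s, hs⟩ := (mem_UU (hX.cont ω)).1 h
  exact hs.trans (le_hh (hX.cont ω) hω zero_le)

lemma prob_hh_gt_le (hX : CBM P X) {c : ℝ} (hc : 0 < c) :
    P.real {ω | c < hh (path X ω) 0} ≤ Real.exp (-c) := by
  rw [← prob_UU hX hc]
  refine ENNReal.toReal_mono (measure_ne_top _ _) (measure_mono_ae ?_)
  filter_upwards [ae_good hX] with ω hω h
  have h' : c < ⨆ n, yy (path X ω) (0 + dq n) := h
  obtain ⟨n, hn⟩ := exists_lt_of_lt_ciSup h'
  exact (mem_UU (hX.cont ω)).2 ⟨_, hn.le⟩

lemma prob_hh_gt (hX : CBM P X) {c : ℝ} (hc : 0 ≤ c) :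
    P.real {ω | c < hh (path X ω) 0} = Real.exp (-c) := by
  apply le_antisymm
  · rcases hc.eq_or_lt with h0 | h0
    · rw [← h0]; simp only [neg_zero, Real.exp_zero]; exact measureReal_le_one
    · exact prob_hh_gt_le hX h0
  · have h1 : ∀ n : ℕ, Real.exp (-(c + 1 / ((n:ℝ) + 1))) ≤ P.real {ω | c < hh (path X ω) 0} := by
      intro n
      have hpos : (0:ℝ) < 1 / ((n:ℝ) + 1) := by positivity
      refine (prob_le_hh_ge hX (c := c + 1 / ((n:ℝ) + 1)) (by linarith)).trans ?_
      refine measureReal_mono (fun ω hω => ?_) (measure_ne_top _ _)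
      simp only [Set.mem_ofPred_eq] at hω ⊢
      linarith
    have h2 : Tendsto (fun n : ℕ => Real.exp (-(c + 1 / ((n:ℝ) + 1)))) atTop
        (𝓝 (Real.exp (-(c + 0)))) := by
      apply (Real.continuous_exp.tendsto _).comp
      exact ((tendsto_const_nhds (x := c)).add tendsto_one_div_add_atTop_nhds_zero_nat).neg
    rw [add_zero] at h2
    exact le_of_tendsto' h2 h1

lemma prob_hh_ge (hX : CBM P X) {c : ℝ} (hc : 0 < c) :
    P.real {ω | c ≤ hh (path X ω) 0} = Real.exp (-c) := by
  apply le_antisymm _ (prob_le_hh_ge hX hc)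
  have h1 : ∀ n : ℕ, P.real {ω | c ≤ hh (path X ω) 0} ≤ Real.exp (-(c - c / ((n:ℝ) + 2))) := by
    intro n
    have hpos : (0:ℝ) < c / ((n:ℝ) + 2) := by positivity
    have hlt : c / ((n:ℝ) + 2) < c := by
      rw [div_lt_iff₀ (by positivity)]
      have : (0:ℝ) ≤ n := by positivity
      nlinarith
    rw [← prob_hh_gt hX (c := c - c / ((n:ℝ) + 2)) (by linarith)]
    refine measureReal_mono (fun ω hω => ?_) (measure_ne_top _ _)
    simp only [Set.mem_ofPred_eq] at hω ⊢
    linarith
  have h2 : Tendsto (fun n : ℕ => Real.exp (-(c - c / ((n:ℝ) + 2)))) atTop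
      (𝓝 (Real.exp (-(c - 0)))) := by
    apply (Real.continuous_exp.tendsto _).comp
    refine ((tendsto_const_nhds (x := c)).sub ?_).neg
    exact tendsto_const_nhds.div_atTop
      (tendsto_atTop_add_const_right _ _ tendsto_natCast_atTop_atTop)
  rw [sub_zero] at h2
  exact ge_of_tendsto' h2 h1

/-- law of the supremum -/
lemma map_hh (hX : CBM P X) : P.map (fun ω => hh (path X ω) 0) = expMeasure 1 := by
  have hm := mH hX 0
  have : IsProbabilityMeasure (P.map (fun ω => hh (path X ω) 0)) :=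
    Measure.isProbabilityMeasure_map hm.aemeasurable
  have : IsProbabilityMeasure (expMeasure 1) := isProbabilityMeasure_expMeasure one_pos
  refine Measure.ext_of_Iic _ _ fun x => ?_
  rw [← ofReal_cdf (expMeasure 1) x, cdf_expMeasure_eq one_pos,
    Measure.map_apply hm measurableSet_Iic]
  split_ifs with h
  · have h1 := prob_hh_gt hX h
    have e : {ω | x < hh (path X ω) 0} = ((fun ω => hh (path X ω) 0) ⁻¹' Iic x)ᶜ := by
      ext ω; simp
    rw [e, probReal_compl_eq_one_sub (hm measurableSet_Iic)] at h1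
    rw [one_mul, ← h1]
    rw [sub_sub_cancel, ofReal_measureReal]
  · rw [ENNReal.ofReal_zero]
    have h0 := hh_nonneg hX
    rw [ae_iff] at h0
    refine measure_mono_null (fun ω hω => ?_) h0
    simp only [mem_preimage, mem_Iic] at hω
    simp only [Set.mem_ofPred_eq, not_le]
    push Not at h
    exact lt_of_le_of_lt hω h

lemma exp_toReal (x : ℝ) : (exponentialPDF 1 x).toReal = if 0 ≤ x then Real.exp (-x) else 0 := by
  rw [exponentialPDF_eq, ENNReal.toReal_ofReal]
  · split_ifs <;> simp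
  · split_ifs
    · positivity
    · exact le_rfl

lemma int_K (hX : CBM P X) : Integrable (fun ω => hh (path X ω) 0) P := by
  have h1 : Integrable (fun x : ℝ => x) (expMeasure 1) := by
    have hm : Measurable (exponentialPDF 1) := (measurable_exponentialPDFReal 1).ennreal_ofReal
    show Integrable (fun x : ℝ => x) (volume.withDensity (exponentialPDF 1))
    rw [integrable_withDensity_iff hm (ae_of_all _ fun x => ENNReal.ofReal_lt_top)]
    have h2 := Real.GammaIntegral_convergent (s := 2) (by norm_num)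
    have h3 : (fun x : ℝ => x * (exponentialPDF 1 x).toReal) =
        (Ioi 0).indicator (fun x => Real.exp (-x) * x ^ ((2:ℝ) - 1)) := by
      funext x
      rw [exp_toReal]
      rcases lt_trichotomy x 0 with h | h | h
      · rw [if_neg (not_le.2 h), indicator_of_notMem (by simp; exact h.le), mul_zero]
      · rw [h]; simp
      · rw [if_pos h.le, indicator_of_mem (show x ∈ Ioi 0 from h)]
        have : (2:ℝ) - 1 = 1 := by norm_num
        rw [this, Real.rpow_one, mul_comm]
    rw [h3, integrable_indicator_iff measurableSet_Ioi]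
    exact h2
  rw [← map_hh hX] at h1
  exact (integrable_map_measure (by fun_prop) (mH hX 0).aemeasurable).1 h1

/-- truncated affine moments -/
lemma E_K (hX : CBM P X) (a b : ℝ) {z : ℝ} (hz : 0 < z) :
    ∫ ω, (Iio z).indicator (fun k => a + b * k) (hh (path X ω) 0) ∂P =
      a * (1 - Real.exp (-z)) + b * (1 - Real.exp (-z) - z * Real.exp (-z)) := by
  have hφm : Measurable ((Iio z).indicator (fun k : ℝ => a + b * k)) :=
    Measurable.indicator (by fun_prop) measurableSet_Iio
  have hm : Measurable (exponentialPDF 1) := (measurable_exponentialPDFReal 1).ennreal_ofReal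
  have e1 : ∫ ω, (Iio z).indicator (fun k => a + b * k) (hh (path X ω) 0) ∂P =
      ∫ x, (Iio z).indicator (fun k => a + b * k) x ∂(expMeasure 1) := by
    rw [← map_hh hX, integral_map (mH hX 0).aemeasurable hφm.aestronglyMeasurable]
  rw [e1]
  show ∫ x, (Iio z).indicator (fun k => a + b * k) x ∂(volume.withDensity (exponentialPDF 1)) = _
  rw [integral_withDensity_eq_integral_toReal_smul hm (ae_of_all _ fun x => ENNReal.ofReal_lt_top)]
  have e2 : (fun x : ℝ => (exponentialPDF 1 x).toReal • (Iio z).indicator (fun k => a + b * k) x) =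
      (Ico 0 z).indicator (fun x => Real.exp (-x) * (a + b * x)) := by
    funext x
    rw [exp_toReal]
    by_cases h1 : 0 ≤ x
    · by_cases h2 : x < z
      · rw [if_pos h1, indicator_of_mem (show x ∈ Iio z from h2),
          indicator_of_mem (show x ∈ Ico 0 z from ⟨h1, h2⟩)]
        rfl
      · rw [indicator_of_notMem (show x ∉ Iio z from h2),
          indicator_of_notMem (show x ∉ Ico 0 z from fun h => h2 h.2), smul_zero]
    · rw [if_neg h1, indicator_of_notMem (show x ∉ Ico 0 z from fun h => h1 h.1), zero_smul]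
  rw [e2, integral_indicator measurableSet_Ico, integral_Ico_eq_integral_Ioc,
    ← intervalIntegral.integral_of_le hz.le]
  have hd : ∀ x ∈ uIcc 0 z, HasDerivAt (fun x : ℝ => -(a + b + b * x) * Real.exp (-x))
      (Real.exp (-x) * (a + b * x)) x := by
    intro x _
    have h1 : HasDerivAt (fun x : ℝ => -(a + b + b * x)) (-b) x := by
      have h0 : HasDerivAt (fun x : ℝ => b * x) b x := by
        simpa using (hasDerivAt_id x).const_mul b
      exact (h0.const_add (a + b)).fun_neg
    have h2 : HasDerivAt (fun x : ℝ => Real.exp (-x)) (-Real.exp (-x)) x := by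
      have := (hasDerivAt_id x).neg.exp
      simpa using this
    have h3 := h1.fun_mul h2
    refine h3.congr_deriv ?_
    ring
  rw [intervalIntegral.integral_eq_sub_of_hasDerivAt hd
    (Continuous.intervalIntegrable (by fun_prop) _ _)]
  simp
  ring

end Pool.Agent.N704.RS
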