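import Pool.Agent.N704.RS.D

/-! The key identity and the martingale property on a generating class. -/

namespace Pool.Agent.N704.RS

open MeasureTheory ProbabilityTheory Set Filter Topology Pool.Agent.TH970
open scoped ENNReal NNReal

variable {Ω : Type*} [MeasurableSpace Ω] {P : Measure Ω} [IsProbabilityMeasure P]
  {X : ℝ≥0 → Ω → ℝ}

/-- finite variation part -/
noncomputable def AA (w : ℝ≥0 → ℝ) (t : ℝ≥0) : ℝ := 2 * (hh w t - hh w 0) + t

/-- martingale part -/
noncomputable def NN (w : ℝ≥0 → ℝ) (t : ℝ≥0) : ℝ := w t - AA w t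

lemma measurable_AA (t : ℝ≥0) : Measurable (fun w : ℝ≥0 → ℝ => AA w t) := by
  unfold AA
  exact (((measurable_hh t).sub (measurable_hh 0)).const_mul 2).add_const _

lemma measurable_NN (t : ℝ≥0) : Measurable (fun w : ℝ≥0 → ℝ => NN w t) := by
  unfold NN
  exact (measurable_pi_apply t).sub (measurable_AA t)

lemma int_H (hX : CBM P X) (t : ℝ≥0) : Integrable (fun ω => hh (path X ω) t) P := by
  have h1 : Integrable (fun ω => |hh (path X ω) 0| + (|X t ω| + (t:ℝ))) P :=
    (int_K hX).abs.add ((hX.pre.integrable_eval t).abs.add (integrable_const _))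
  refine h1.mono' (mH hX t).aestronglyMeasurable ?_
  filter_upwards [ae_good hX] with ω hω
  have h2 := hh_anti (hX.cont ω) hω (zero_le (a := t))
  have h3 := le_hh (hX.cont ω) hω (le_refl t)
  have h4 : yy (path X ω) t = X t ω - (t:ℝ) / 2 := rfl
  rw [h4] at h3
  have ht : (0:ℝ) ≤ t := t.2
  rw [Real.norm_eq_abs]
  have a1 := le_abs_self (hh (path X ω) 0)
  have a2 := neg_abs_le (X t ω)
  have a3 := abs_nonneg (X t ω)
  have a4 := abs_nonneg (hh (path X ω) 0)
  rw [abs_le]
  constructor <;> linarith

lemma int_AA (hX : CBM P X) (t : ℝ≥0) : Integrable (fun ω => AA (path X ω) t) P := by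
  unfold AA
  exact (((int_H hX t).sub (int_H hX 0)).const_mul 2).add (integrable_const _)

lemma int_NN (hX : CBM P X) (t : ℝ≥0) : Integrable (fun ω => NN (path X ω) t) P :=
  (hX.pre.integrable_eval t).sub (int_AA hX t)

lemma int_v2 (hX : CBM P X) {c : ℝ} (hc : 0 < c) (h : ℝ≥0) :
    Integrable (fun ω => v2 c h (X h ω)) P := by
  have hm : Measurable (fun ω => v2 c h (X h ω)) := by
    have : Continuous (fun x : ℝ => v2 c h x) :=
      (cont_v2 c).comp (continuous_const.prodMk continuous_id)
    exact this.measurable.comp (hX.meas h)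
  exact ((int_dom hX h).const_mul (8 + 2 * c + h)).mono' hm.aestronglyMeasurable
    (ae_of_all _ fun ω => by rw [Real.norm_eq_abs]; exact dom_v2 hX hc le_rfl ω)

lemma v2_compl (hX : CBM P X) {c : ℝ} (hc : 0 < c) (h : ℝ≥0) :
    ∫ ω in (path X ⁻¹' DD c h)ᶜ, v2 c h (X h ω) ∂P = -2 + Real.exp (-c) * (2 + 2 * c) := by
  have h1 := os (h := h) hX hc (v2 c) (cont_v2 c) (fun u hu x => heat2 hX c hu x) 0
    (fun t _ => by
      unfold v2
      have e : c + (t:ℝ)/2 - (t:ℝ)/2 = c := by ring
      rw [e, ← Real.exp_add]
      simp only [neg_add_cancel, Real.exp_zero]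
      ring)
    (fun ω => (8 + 2 * c + h) * dom X h ω) ((int_dom hX h).const_mul _)
    (fun ω t ht => dom_v2 hX hc ht ω)
  rw [zero_mul] at h1
  have h2 := integral_add_compl (hX.mpath (measurableSet_DD c h)) (int_v2 hX hc h)
  rw [h1, zero_add] at h2
  rw [h2]
  have h3 := heat2 hX c (zero_le (a := h)) 0
  simp only [tsub_zero, zero_add] at h3
  rw [h3]
  unfold v2
  simp

/-- the key identity -/
theorem ident (hX : CBM P X) (h : ℝ≥0) (c : ℝ) :
    ∫ ω in {ω | hh (path X ω) 0 < c}, NN (path X ω) h ∂P = 0 := by
  rcases le_or_gt c 0 with hc | hc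
  · apply setIntegral_measure_zero
    have h0 := hh_nonneg hX
    rw [ae_iff] at h0
    refine measure_mono_null (fun ω hω => ?_) h0
    simp only [Set.mem_ofPred_eq] at hω ⊢
    linarith
  set SS : Set (ℝ≥0 → ℝ) := (DD c h)ᶜ ∩ {w | hh w h < c} with hSS
  have hSSm : MeasurableSet SS :=
    (measurableSet_DD c h).compl.inter (measurableSet_lt (measurable_hh h) measurable_const)
  set F : (ℝ≥0 → ℝ) → ℝ := SS.indicator (fun w => w h - 2 * hh w h - h) with hF
  have hFm : Measurable F :=
    (((measurable_pi_apply h).sub ((measurable_hh h).const_mul 2)).sub_const _).indicator hSSm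
  have hFi : Integrable (fun ω => F (path X ω)) P := by
    have : (fun ω => F (path X ω)) =
        (path X ⁻¹' SS).indicator (fun ω => X h ω - 2 * hh (path X ω) h - h) := rfl
    rw [this]
    exact (((hX.pre.integrable_eval h).sub ((int_H hX h).const_mul 2)).sub
      (integrable_const _)).indicator (hX.mpath hSSm)
  have hG : Integrable (fun ω => (Iio c).indicator (fun k : ℝ => 0 + 1 * k) (hh (path X ω) 0)) P := by
    have : (fun ω => (Iio c).indicator (fun k : ℝ => 0 + 1 * k) (hh (path X ω) 0)) =
        {ω | hh (path X ω) 0 < c}.indicator (fun ω => 0 + 1 * hh (path X ω) 0) := rfl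
    rw [this]
    refine Integrable.indicator ?_ (measurableSet_lt (mH hX 0) measurable_const)
    simpa using int_K hX
  have hset : MeasurableSet {ω | hh (path X ω) 0 < c} :=
    measurableSet_lt (mH hX 0) measurable_const
  -- step 1
  have e1 : ∫ ω in {ω | hh (path X ω) 0 < c}, NN (path X ω) h ∂P =
      ∫ ω, F (path X ω) ∂P +
        2 * ∫ ω, (Iio c).indicator (fun k : ℝ => 0 + 1 * k) (hh (path X ω) 0) ∂P := by
    rw [← integral_indicator hset, ← integral_const_mul, ← integral_add hFi (hG.const_mul 2)]
    refine integral_congr_ae ?_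
    filter_upwards [ae_good hX] with ω hω
    have hw := hX.cont ω
    have hmax := hh_eq_max hw hω (zero_le (a := h))
    by_cases hlt : hh (path X ω) 0 < c
    · have h1 : ω ∈ {ω | hh (path X ω) 0 < c} := hlt
      rw [indicator_of_mem h1, indicator_of_mem (show hh (path X ω) 0 ∈ Iio c from hlt)]
      rw [hmax, max_lt_iff] at hlt
      have h2 : path X ω ∈ SS := by
        refine ⟨?_, hlt.2⟩
        show ¬ (c ≤ mx (yy (path X ω)) 0 h)
        exact not_le.2 hlt.1
      rw [hF, indicator_of_mem h2]
      unfold NN AA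
      ring
    · have h1 : ω ∉ {ω | hh (path X ω) 0 < c} := hlt
      rw [indicator_of_notMem h1, indicator_of_notMem (show hh (path X ω) 0 ∉ Iio c from hlt)]
      have h2 : path X ω ∉ SS := by
        rintro ⟨h3, h4⟩
        apply hlt
        rw [hmax, max_lt_iff]
        exact ⟨not_le.1 h3, h4⟩
      rw [hF, indicator_of_notMem h2]
      ring
  -- step 2
  have e2 : ∫ ω, F (path X ω) ∂P = ∫ ω in (path X ⁻¹' DD c h)ᶜ, v2 c h (X h ω) ∂P := by
    rw [integral_cat hX h hFm hFi, ← integral_indicator (hX.mpath (measurableSet_DD c h)).compl]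
    refine integral_congr_ae (ae_of_all _ fun ω => ?_)
    simp only
    have hw := hX.cont ω
    by_cases hd : path X ω ∈ DD c h
    · rw [indicator_of_notMem (show ω ∉ (path X ⁻¹' DD c h)ᶜ from fun hcon => hcon hd)]
      have : ∀ ω', F (cat h (path X ω) (path X ω')) = 0 := fun ω' => by
        rw [hF]
        apply indicator_of_notMem
        rintro ⟨h1, -⟩
        exact h1 ((DD_cat le_rfl (hX.path_zero ω')).2 hd)
      rw [integral_congr_ae (ae_of_all _ this), integral_zero]
    · rw [indicator_of_mem (show ω ∈ (path X ⁻¹' DD c h)ᶜ from hd)]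
      have hylt : yy (path X ω) h < c := by
        by_contra hcon
        push Not at hcon
        exact hd ((mem_DD hw).2 ⟨h, le_rfl, hcon⟩)
      set x := X h ω with hx
      have hyx : yy (path X ω) h = x - (h:ℝ) / 2 := rfl
      have hz : 0 < c - yy (path X ω) h := by linarith
      have key : ∀ᵐ ω' ∂P, F (cat h (path X ω) (path X ω')) =
          (Iio (c - yy (path X ω) h)).indicator (fun k => -x + (-2) * k) (hh (path X ω') 0) := by
        filter_upwards [ae_good hX] with ω' hg
        have hh1 : hh (cat h (path X ω) (path X ω')) h =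
            yy (path X ω) h + hh (path X ω') 0 := by
          have := hh_cat (b := h) (w := path X ω) hg 0
          rwa [add_zero] at this
        by_cases hlt : hh (path X ω') 0 < c - yy (path X ω) h
        · rw [indicator_of_mem (show hh (path X ω') 0 ∈ Iio (c - yy (path X ω) h) from hlt), hF,
            indicator_of_mem]
          · rw [hh1, cat_left (hX.path_zero ω') le_rfl, hyx]
            show x - 2 * (x - (h:ℝ)/2 + hh (path X ω') 0) - h = -x + (-2) * hh (path X ω') 0
            ring
          · refine ⟨fun hcon => hd ((DD_cat le_rfl (hX.path_zero ω')).1 hcon), ?_⟩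
            show hh (cat h (path X ω) (path X ω')) h < c
            rw [hh1]; linarith
        · rw [indicator_of_notMem (show hh (path X ω') 0 ∉ Iio (c - yy (path X ω) h) from hlt), hF,
            indicator_of_notMem]
          rintro ⟨-, h4⟩
          apply hlt
          have h5 : hh (cat h (path X ω) (path X ω')) h < c := h4
          rw [hh1] at h5
          linarith
      rw [integral_congr_ae key, E_K hX _ _ hz]
      have he : Real.exp (-(c - yy (path X ω) h)) = Real.exp (-c) * Real.exp (x - (h:ℝ)/2) := by
        rw [← Real.exp_add, hyx]; ring_nf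
      rw [he]
      unfold v2
      rw [hyx]
      ring
  rw [e1, e2, v2_compl hX hc, E_K hX 0 1 hc]
  ring

/-- martingale property on rectangles -/
theorem mart_rect (hX : CBM P X) {s t : ℝ≥0} (hst : s ≤ t) {S : Set (ℝ≥0 → ℝ)}
    (hS : MeasurableSet S) (hSc : ∀ w z : ℝ≥0 → ℝ, z 0 = 0 → (cat s w z ∈ S ↔ w ∈ S)) (c : ℝ) :
    ∫ ω in path X ⁻¹' S ∩ {ω | hh (path X ω) s < c}, (NN (path X ω) t - NN (path X ω) s) ∂P = 0 := by
  set TT : Set (ℝ≥0 → ℝ) := S ∩ {w | hh w s < c} with hTT
  have hTTm : MeasurableSet TT := hS.inter (measurableSet_lt (measurable_hh s) measurable_const)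
  set F : (ℝ≥0 → ℝ) → ℝ := TT.indicator (fun w => NN w t - NN w s) with hF
  have hFm : Measurable F := ((measurable_NN t).sub (measurable_NN s)).indicator hTTm
  have hFe : (fun ω => F (path X ω)) =
        (path X ⁻¹' TT).indicator (fun ω => NN (path X ω) t - NN (path X ω) s) := rfl
  have hFi : Integrable (fun ω => F (path X ω)) P := by
    rw [hFe]
    exact ((int_NN hX t).sub (int_NN hX s)).indicator (hX.mpath hTTm)
  have e0 : path X ⁻¹' S ∩ {ω | hh (path X ω) s < c} = path X ⁻¹' TT := rfl
  rw [e0, ← integral_indicator (hX.mpath hTTm), ← hFe, integral_cat hX s hFm hFi]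
  refine (integral_congr_ae (ae_of_all _ fun ω => ?_)).trans (integral_zero _ _)
  by_cases hω : path X ω ∈ S
  · have hset : MeasurableSet {ω' | hh (path X ω') 0 < c - yy (path X ω) s} :=
      measurableSet_lt (mH hX 0) measurable_const
    have key : ∀ᵐ ω' ∂P, F (cat s (path X ω) (path X ω')) =
        {ω' | hh (path X ω') 0 < c - yy (path X ω) s}.indicator
          (fun ω' => NN (path X ω') (t - s)) ω' := by
      filter_upwards [ae_good hX] with ω' hg
      have hh1 : hh (cat s (path X ω) (path X ω')) s = yy (path X ω) s + hh (path X ω') 0 := by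
        have := hh_cat (b := s) (w := path X ω) hg 0
        rwa [add_zero] at this
      have hh2 : hh (cat s (path X ω) (path X ω')) t =
          yy (path X ω) s + hh (path X ω') (t - s) := by
        have := hh_cat (b := s) (w := path X ω) hg (t - s)
        rwa [add_tsub_cancel_of_le hst] at this
      by_cases hlt : hh (path X ω') 0 < c - yy (path X ω) s
      · rw [indicator_of_mem (show ω' ∈ {ω' | hh (path X ω') 0 < c - yy (path X ω) s} from hlt),
          hF, indicator_of_mem]
        · unfold NN AA
          rw [hh1, hh2, cat_left (hX.path_zero ω') le_rfl, cat_right hst, NNReal.coe_sub hst]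
          ring
        · refine ⟨(hSc _ _ (hX.path_zero ω')).2 hω, ?_⟩
          show hh (cat s (path X ω) (path X ω')) s < c
          rw [hh1]; linarith
      · rw [indicator_of_notMem (show ω' ∉ {ω' | hh (path X ω') 0 < c - yy (path X ω) s} from hlt),
          hF, indicator_of_notMem]
        rintro ⟨-, h4⟩
        apply hlt
        have h5 : hh (cat s (path X ω) (path X ω')) s < c := h4
        rw [hh1] at h5
        show hh (path X ω') 0 < c - yy (path X ω) s
        linarith
    rw [integral_congr_ae key, integral_indicator hset]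
    exact ident hX _ _
  · have : ∀ ω', F (cat s (path X ω) (path X ω')) = 0 := fun ω' => by
      rw [hF]
      apply indicator_of_notMem
      rintro ⟨h1, -⟩
      exact hω ((hSc _ _ (hX.path_zero ω')).1 h1)
    rw [integral_congr_ae (ae_of_all _ this), integral_zero]

end Pool.Agent.N704.RS
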