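import Pool.Agent.N704.RS.E

/-! The two filtrations and the martingale properties. -/

namespace Pool.Agent.N704.RS

open MeasureTheory ProbabilityTheory Set Filter Topology Pool.Agent.TH970
open scoped ENNReal NNReal

variable {Ω : Type*} [mΩ : MeasurableSpace Ω] {P : Measure Ω} [IsProbabilityMeasure P]
  {X : ℝ≥0 → Ω → ℝ}

/-- restriction of the path -/
def res (X : ℝ≥0 → Ω → ℝ) (t : ℝ≥0) : Ω → (Set.Iic t → ℝ) := fun ω r => X r ω

/-- restriction of the path together with the future supremum -/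
noncomputable def Phi (X : ℝ≥0 → Ω → ℝ) (t : ℝ≥0) : Ω → (Set.Iic t → ℝ) × ℝ :=
  fun ω => (res X t ω, hh (path X ω) t)

/-- augmentation -/
abbrev aug {Ω : Type*} {mΩ : MeasurableSpace Ω} (P : Measure Ω) (m : MeasurableSpace Ω) :
    MeasurableSpace Ω :=
  eventuallyMeasurableSpace m (ae P)

lemma aug_le_aug {m1 m2 : MeasurableSpace Ω} (h : m1 ≤ aug P m2) : aug P m1 ≤ aug P m2 := by
  rintro s ⟨t, ht, hst⟩
  obtain ⟨u, hu, htu⟩ := h t ht
  exact ⟨u, hu, hst.trans htu⟩

lemma aug_le [P.IsComplete] {m : MeasurableSpace Ω} (h : m ≤ mΩ) : aug P m ≤ mΩ := by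
  rintro s ⟨t, ht, hst⟩
  have h1 : @NullMeasurableSet Ω mΩ s P := ⟨t, h t ht, hst⟩
  exact h1.measurable_of_complete

lemma meas_res (hX : CBM P X) (t : ℝ≥0) : Measurable (res X t) :=
  measurable_pi_iff.2 fun r => hX.meas r

lemma meas_Phi (hX : CBM P X) (t : ℝ≥0) : Measurable (Phi X t) :=
  (meas_res hX t).prodMk (mH hX t)

lemma res_le (hX : CBM P X) (t : ℝ≥0) : MeasurableSpace.comap (res X t) inferInstance ≤ mΩ :=
  (meas_res hX t).comap_le

lemma Phi_le (hX : CBM P X) (t : ℝ≥0) : MeasurableSpace.comap (Phi X t) inferInstance ≤ mΩ :=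
  (meas_Phi hX t).comap_le

lemma meas_X_res {r t : ℝ≥0} (h : r ≤ t) :
    Measurable[MeasurableSpace.comap (res X t) inferInstance] (X r) := by
  have h1 : Measurable[MeasurableSpace.comap (res X t) inferInstance] (res X t) :=
    comap_measurable _
  exact (measurable_pi_apply (⟨r, h⟩ : Set.Iic t)).comp h1

lemma res_le_Phi (t : ℝ≥0) : MeasurableSpace.comap (res X t) inferInstance ≤
    MeasurableSpace.comap (Phi X t) inferInstance := by
  have h1 : Measurable[MeasurableSpace.comap (Phi X t) inferInstance] (Phi X t) :=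
    comap_measurable _
  have h2 : Measurable[MeasurableSpace.comap (Phi X t) inferInstance] (res X t) :=
    measurable_fst.comp h1
  exact h2.comap_le

lemma meas_X_Phi {r t : ℝ≥0} (h : r ≤ t) :
    Measurable[MeasurableSpace.comap (Phi X t) inferInstance] (X r) :=
  (meas_X_res h).mono (res_le_Phi t) le_rfl

lemma meas_H_Phi (t : ℝ≥0) :
    Measurable[MeasurableSpace.comap (Phi X t) inferInstance] (fun ω => hh (path X ω) t) := by
  have h1 : Measurable[MeasurableSpace.comap (Phi X t) inferInstance] (Phi X t) :=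
    comap_measurable _
  exact measurable_snd.comp h1

lemma meas_H_aug (hX : CBM P X) {r t : ℝ≥0} (h : r ≤ t) :
    Measurable[aug P (MeasurableSpace.comap (Phi X t) inferInstance)]
      (fun ω => hh (path X ω) r) := by
  have h1 : Measurable[MeasurableSpace.comap (Phi X t) inferInstance]
      (fun ω => max (mx (yy (path X ω)) r t) (hh (path X ω) t)) := by
    refine Measurable.max ?_ (meas_H_Phi t)
    unfold mx
    refine Measurable.iSup fun n => ?_
    unfold yy
    refine Measurable.sub_const ?_ _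
    exact meas_X_Phi (max_le h (min_le_right _ _))
  refine h1.eventuallyMeasurable_of_eventuallyEq ?_
  filter_upwards [ae_good hX] with ω hω
  exact hh_eq_max (hX.cont ω) hω h

lemma Phi_mono (hX : CBM P X) {s t : ℝ≥0} (h : s ≤ t) :
    MeasurableSpace.comap (Phi X s) inferInstance ≤
      aug P (MeasurableSpace.comap (Phi X t) inferInstance) := by
  have h1 : Measurable[aug P (MeasurableSpace.comap (Phi X t) inferInstance)] (Phi X s) := by
    refine Measurable.prodMk ?_ (meas_H_aug hX h)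
    exact @measurable_pi_lambda Ω (Set.Iic s) (fun _ => ℝ)
      (aug P (MeasurableSpace.comap (Phi X t) inferInstance)) _ (res X s)
      (fun r => (meas_X_Phi (r.2.trans h)).mono (le_eventuallyMeasurableSpace) le_rfl)
  exact h1.comap_le

lemma res_mono {s t : ℝ≥0} (h : s ≤ t) :
    MeasurableSpace.comap (res X s) inferInstance ≤ MeasurableSpace.comap (res X t) inferInstance := by
  have h1 : Measurable[MeasurableSpace.comap (res X t) inferInstance] (res X s) :=
    @measurable_pi_lambda Ω (Set.Iic s) (fun _ => ℝ)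
      (MeasurableSpace.comap (res X t) inferInstance) _ (res X s)
      (fun r => meas_X_res (r.2.trans h))
  exact h1.comap_le

/-- the small filtration -/
noncomputable def FF [P.IsComplete] (hX : CBM P X) : Filtration ℝ≥0 mΩ where
  seq t := aug P (MeasurableSpace.comap (res X t) inferInstance)
  mono' _ _ h := aug_le_aug ((res_mono h).trans (le_eventuallyMeasurableSpace))
  le' t := aug_le (res_le hX t)

/-- the large filtration -/
noncomputable def GG [P.IsComplete] (hX : CBM P X) : Filtration ℝ≥0 mΩ where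
  seq t := aug P (MeasurableSpace.comap (Phi X t) inferInstance)
  mono' _ _ h := aug_le_aug (Phi_mono hX h)
  le' t := aug_le (Phi_le hX t)

lemma null_aug {m : MeasurableSpace Ω} {S : Set Ω} (hS : P S = 0) : MeasurableSet[aug P m] S :=
  ⟨∅, MeasurableSet.empty, by
    rw [ae_eq_empty]; exact hS⟩

/-- criterion -/
lemma martingale_of {ℱ : Filtration ℝ≥0 mΩ} {f : ℝ≥0 → Ω → ℝ} (B : ℝ≥0 → MeasurableSpace Ω)
    (hB : ∀ t, B t ≤ mΩ) (hℱ : ∀ t, ℱ t = aug P (B t)) (hf : ∀ t, Measurable[ℱ t] (f t))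
    (hi : ∀ t, Integrable (f t) P)
    (hs : ∀ s t, s ≤ t → ∀ Λ, MeasurableSet[B s] Λ → ∫ ω in Λ, (f t ω - f s ω) ∂P = 0) :
    Martingale f ℱ P := by
  refine ⟨fun t => (hf t).stronglyMeasurable, fun s t hst => ?_⟩
  symm
  refine ae_eq_condExp_of_forall_setIntegral_eq (ℱ.le s) (hi t) (fun S _ _ => (hi s).integrableOn)
    (fun S hS _ => ?_) (hf s).stronglyMeasurable.aestronglyMeasurable
  rw [hℱ s] at hS
  obtain ⟨Λ, hΛ, hSΛ⟩ := hS
  rw [setIntegral_congr_set hSΛ, setIntegral_congr_set hSΛ]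
  have := hs s t hst Λ hΛ
  rw [integral_sub (hi t).integrableOn (hi s).integrableOn] at this
  linarith

/-- events of the past as path events -/
lemma past_path {s : ℝ≥0} {Λ : Set Ω}
    (hΛ : MeasurableSet[MeasurableSpace.comap (res X s) inferInstance] Λ) :
    ∃ S : Set (ℝ≥0 → ℝ), MeasurableSet S ∧ Λ = path X ⁻¹' S ∧
      ∀ w z : ℝ≥0 → ℝ, z 0 = 0 → (cat s w z ∈ S ↔ w ∈ S) := by
  obtain ⟨S', hS', rfl⟩ := hΛ
  have hm : Measurable (fun (w : ℝ≥0 → ℝ) (r : Set.Iic s) => w r) :=
    measurable_pi_iff.2 fun r => measurable_pi_apply _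
  refine ⟨(fun (w : ℝ≥0 → ℝ) (r : Set.Iic s) => w r) ⁻¹' S', hm hS', rfl, fun w z hz => ?_⟩
  have : (fun r : Set.Iic s => cat s w z r) = fun r : Set.Iic s => w r := by
    funext r
    exact cat_left hz r.2
  simp only [mem_preimage, this]

theorem martingale_X [P.IsComplete] (hX : CBM P X) : Martingale X (FF hX) P := by
  refine martingale_of (fun t => MeasurableSpace.comap (res X t) inferInstance) (res_le hX)
    (fun t => rfl) (fun t => (meas_X_res le_rfl).mono (le_eventuallyMeasurableSpace) le_rfl)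
    (fun t => hX.pre.integrable_eval t) fun s t hst Λ hΛ => ?_
  obtain ⟨S, hS, rfl, hSc⟩ := past_path hΛ
  have h1 := past_event hX hst (fun _ x => x) continuous_snd (fun u hu x => by
    rw [integral_add (integrable_const _) (hX.pre.integrable_eval _), hX.pre.integral_eval]
    simp) (hX.pre.integrable_eval t) hS hSc
  rw [integral_sub (hX.pre.integrable_eval t).integrableOn (hX.pre.integrable_eval s).integrableOn,
    h1, sub_self]

/-- set integrals over the large sigma-algebra -/
lemma setint_Phi (hX : CBM P X) {s t : ℝ≥0} (hst : s ≤ t) {Λ : Set Ω}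
    (hΛ : MeasurableSet[MeasurableSpace.comap (Phi X s) inferInstance] Λ) :
    ∫ ω in Λ, (NN (path X ω) t - NN (path X ω) s) ∂P = 0 := by
  obtain ⟨C, hC, rfl⟩ := hΛ
  set D : Ω → ℝ := fun ω => NN (path X ω) t - NN (path X ω) s with hD
  have hDi : Integrable D P := (int_NN hX t).sub (int_NN hX s)
  -- stage 1 : rectangles
  have stage1 : ∀ (S' : Set (Set.Iic s → ℝ)), MeasurableSet S' → ∀ (c : ℝ),
      ∫ ω in res X s ⁻¹' S' ∩ (fun ω => hh (path X ω) s) ⁻¹' Iio c, D ω ∂P = 0 := by
    intro S' hS' c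
    obtain ⟨S, hS, hSe, hSc⟩ := past_path (X := X) (s := s) (Λ := res X s ⁻¹' S') ⟨S', hS', rfl⟩
    rw [hSe]
    exact mart_rect hX hst hS hSc c
  have stage1' : ∀ (S' : Set (Set.Iic s → ℝ)), MeasurableSet S' →
      ∫ ω in res X s ⁻¹' S', D ω ∂P = 0 := by
    intro S' hS'
    have hm : ∀ n : ℕ, MeasurableSet (res X s ⁻¹' S' ∩ (fun ω => hh (path X ω) s) ⁻¹' Iio (n:ℝ)) :=
      fun n => ((meas_res hX s) hS').inter ((mH hX s) measurableSet_Iio)
    have hmono : Monotone fun n : ℕ =>
        res X s ⁻¹' S' ∩ (fun ω => hh (path X ω) s) ⁻¹' Iio (n:ℝ) := by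
      intro a b hab ω hω
      refine ⟨hω.1, ?_⟩
      have : (a:ℝ) ≤ b := by exact_mod_cast hab
      exact lt_of_lt_of_le hω.2 this
    have h1 := tendsto_setIntegral_of_monotone hm hmono hDi.integrableOn
    have h2 : (⋃ n : ℕ, res X s ⁻¹' S' ∩ (fun ω => hh (path X ω) s) ⁻¹' Iio (n:ℝ)) =
        res X s ⁻¹' S' := by
      rw [← inter_iUnion]
      apply inter_eq_left.2
      intro ω _
      obtain ⟨n, hn⟩ := exists_nat_gt (hh (path X ω) s)
      exact mem_iUnion.2 ⟨n, hn⟩
    rw [h2] at h1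
    have h3 : (fun n : ℕ => ∫ ω in res X s ⁻¹' S' ∩ (fun ω => hh (path X ω) s) ⁻¹' Iio (n:ℝ),
        D ω ∂P) = fun _ => 0 := funext fun n => stage1 S' hS' n
    rw [h3] at h1
    exact tendsto_nhds_unique h1 tendsto_const_nhds
  -- stage 2 : A × Borel
  have stage2 : ∀ (S' : Set (Set.Iic s → ℝ)), MeasurableSet S' → ∀ (B : Set ℝ), MeasurableSet B →
      ∫ ω in res X s ⁻¹' S' ∩ (fun ω => hh (path X ω) s) ⁻¹' B, D ω ∂P = 0 := by
    intro S' hS' B hB
    have hA : MeasurableSet (res X s ⁻¹' S') := (meas_res hX s) hS'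
    have hHB : ∀ B : Set ℝ, MeasurableSet B → MeasurableSet ((fun ω => hh (path X ω) s) ⁻¹' B) :=
      fun B hB => (mH hX s) hB
    refine MeasurableSpace.induction_on_inter (C := fun B _ =>
      ∫ ω in res X s ⁻¹' S' ∩ (fun ω => hh (path X ω) s) ⁻¹' B, D ω ∂P = 0)
      (borel_eq_generateFrom_Iio ℝ ▸ (BorelSpace.measurable_eq (α := ℝ))) isPiSystem_Iio ?_ ?_ ?_ ?_
      B hB
    · simp
    · rintro _ ⟨c, rfl⟩
      exact stage1 S' hS' c
    · intro t ht hti
      have h1 : res X s ⁻¹' S' ∩ (fun ω => hh (path X ω) s) ⁻¹' tᶜ =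
          res X s ⁻¹' S' \ (res X s ⁻¹' S' ∩ (fun ω => hh (path X ω) s) ⁻¹' t) := by
        ext ω
        simp only [preimage_compl, mem_inter_iff, mem_compl_iff, mem_preimage, Set.mem_sdiff, not_and]
        tauto
      rw [h1, setIntegral_sdiff (hA.inter (hHB t ht)) hDi.integrableOn inter_subset_left, hti,
        stage1' S' hS', sub_self]
    · intro f hf hfm hfi
      rw [preimage_iUnion, inter_iUnion, integral_iUnion]
      · simp only [hfi, tsum_zero]
      · exact fun i => hA.inter (hHB _ (hfm i))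
      · intro i j hij
        exact ((hf hij).preimage _).mono inter_subset_right inter_subset_right
      · exact hDi.integrableOn
  -- stage 3 : all sets
  have hPm := meas_Phi hX s
  refine MeasurableSpace.induction_on_inter (C := fun C _ => ∫ ω in Phi X s ⁻¹' C, D ω ∂P = 0)
    generateFrom_prod.symm isPiSystem_prod ?_ ?_ ?_ ?_ C hC
  · simp
  · rintro _ ⟨S', hS', B, hB, rfl⟩
    exact stage2 S' hS' B hB
  · intro t ht hti
    have huniv : ∫ ω, D ω ∂P = 0 := by
      have := stage1' univ MeasurableSet.univ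
      simpa using this
    rw [preimage_compl, setIntegral_compl (hPm ht) hDi, huniv, hti, sub_self]
  · intro f hf hfm hfi
    rw [preimage_iUnion, integral_iUnion]
    · simp only [hfi, tsum_zero]
    · exact fun i => hPm (hfm i)
    · intro i j hij
      exact (hf hij).preimage _
    · exact hDi.integrableOn

lemma meas_AA_GG [P.IsComplete] (hX : CBM P X) (t : ℝ≥0) :
    Measurable[GG hX t] (fun ω => AA (path X ω) t) := by
  have h1 : Measurable[GG hX t] (fun ω => hh (path X ω) t) := meas_H_aug hX le_rfl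
  have h2 : Measurable[GG hX t] (fun ω => hh (path X ω) 0) := meas_H_aug hX zero_le
  unfold AA
  exact ((h1.sub h2).const_mul 2).add_const _

theorem martingale_N [P.IsComplete] (hX : CBM P X) :
    Martingale (fun t ω => NN (path X ω) t) (GG hX) P := by
  refine martingale_of (fun t => MeasurableSpace.comap (Phi X t) inferInstance) (Phi_le hX)
    (fun t => rfl) (fun t => ?_) (fun t => int_NN hX t) fun s t hst Λ hΛ => setint_Phi hX hst hΛ
  have h1 : Measurable[GG hX t] (X t) :=
    (meas_X_Phi le_rfl).mono (le_eventuallyMeasurableSpace) le_rfl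
  exact h1.sub (meas_AA_GG hX t)

end Pool.Agent.N704.RS
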