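import Pool.Agent.N704.RS.F

/-! Quadratic variations. -/

namespace Pool.Agent.N704.RS

open MeasureTheory ProbabilityTheory Set Filter Topology Pool.Agent.TH970
open scoped ENNReal NNReal

/-- `Q` is the quadratic variation `[Z, Z]` of the process `Z`: along every sequence of
subdivisions of `[0, t]` whose mesh tends to zero, the sums of the squares of the increments
of `Z` converge in probability to `Q t`. -/
def IsQV {Ω : Type*} [MeasurableSpace Ω] (P : Measure Ω) (Z Q : ℝ≥0 → Ω → ℝ) : Prop :=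
  ∀ (t : ℝ≥0) (k : ℕ → ℕ) (τ : ℕ → ℕ → ℝ≥0), (∀ n, Monotone (τ n)) → (∀ n, τ n 0 = 0) →
    (∀ n, τ n (k n) = t) →
    (∀ ε : ℝ, 0 < ε → ∀ᶠ n in atTop, ∀ i < k n, (τ n (i + 1) : ℝ) - τ n i < ε) →
    TendstoInMeasure P
      (fun n ω => ∑ i ∈ Finset.range (k n), (Z (τ n (i + 1)) ω - Z (τ n i) ω) ^ 2) atTop (Q t)

variable {Ω : Type*} [mΩ : MeasurableSpace Ω] {P : Measure Ω} [IsProbabilityMeasure P]
  {X : ℝ≥0 → Ω → ℝ}

/-- the constant -/
noncomputable def KK : ℝ := variance (fun x : ℝ => x ^ 2) (gaussianReal 0 1)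

lemma memLp_sq_gauss (v : ℝ≥0) : MemLp (fun x : ℝ => x ^ 2) 2 (gaussianReal 0 v) := by
  have h := memLp_id_gaussianReal (μ := 0) (v := v) 4
  have h2 : MemLp (fun x : ℝ => x ^ 2) 2 (gaussianReal 0 v) := by
    have h3 := h.norm_rpow_div (q := 2)
    have h4 : (fun x : ℝ => ‖(id x : ℝ)‖ ^ (2 : ℝ≥0∞).toReal) = fun x : ℝ => x ^ 2 := by
      funext x
      simp
    rw [h4] at h3
    have h5 : ((4 : ℝ≥0) : ℝ≥0∞) / 2 = 2 := by
      have h6 : ((4 : ℝ≥0) : ℝ≥0∞) = 2 * 2 := by norm_num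
      rw [h6]
      exact ENNReal.mul_div_cancel_right (by simp) (by simp)
    rwa [h5] at h3
  exact h2

lemma var_sq_gauss (v : ℝ≥0) : variance (fun x : ℝ => x ^ 2) (gaussianReal 0 v) =
    (v : ℝ) ^ 2 * KK := by
  have h1 : gaussianReal 0 v = (gaussianReal 0 1).map (fun x => Real.sqrt v * x) := by
    have := gaussianReal_map_const_mul (μ := 0) (v := 1) (Real.sqrt v)
    rw [this]
    congr 1
    · simp
    · ext
      simp
  rw [h1, variance_map (by fun_prop) (by fun_prop)]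
  have h2 : ((fun x : ℝ => x ^ 2) ∘ fun x : ℝ => Real.sqrt v * x) =
      fun x : ℝ => (v : ℝ) * (x ^ 2) := by
    funext x
    simp only [Function.comp]
    have h3 : Real.sqrt (v : ℝ) ^ 2 = (v : ℝ) := Real.sq_sqrt v.coe_nonneg
    rw [mul_pow, h3]
  rw [h2, variance_const_mul]
  rfl

lemma law_incr (hX : CBM P X) {s t : ℝ≥0} (h : s ≤ t) :
    P.map (fun ω => X t ω - X s ω) = gaussianReal 0 (t - s) := by
  have h1 := (hX.pre.hasLaw_sub t s).map_eq
  have h2 : nndist t.1 s.1 = t - s := by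
    ext
    rw [coe_nndist, Real.dist_eq, NNReal.coe_sub h]
    apply abs_of_nonneg
    have : (s:ℝ) ≤ t := h
    exact sub_nonneg.2 this
  rw [h2] at h1
  exact h1

lemma memLp_incr_sq (hX : CBM P X) {s t : ℝ≥0} (h : s ≤ t) :
    MemLp (fun ω => (X t ω - X s ω) ^ 2) 2 P := by
  have h0 : Measurable (fun ω => X t ω - X s ω) := (hX.meas t).sub (hX.meas s)
  have h1 := memLp_sq_gauss (t - s)
  rw [← law_incr hX h] at h1
  exact (memLp_map_measure_iff (by fun_prop) h0.aemeasurable).1 h1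

lemma var_incr_sq (hX : CBM P X) {s t : ℝ≥0} (h : s ≤ t) :
    variance (fun ω => (X t ω - X s ω) ^ 2) P = ((t:ℝ) - s) ^ 2 * KK := by
  have h0 : Measurable (fun ω => X t ω - X s ω) := (hX.meas t).sub (hX.meas s)
  have h1 := var_sq_gauss (t - s)
  rw [← law_incr hX h, variance_map (by fun_prop) h0.aemeasurable] at h1
  rw [NNReal.coe_sub h] at h1
  exact h1

lemma int_incr_sq (hX : CBM P X) {s t : ℝ≥0} (h : s ≤ t) :
    ∫ ω, (X t ω - X s ω) ^ 2 ∂P = (t:ℝ) - s := by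
  have h0 : Measurable (fun ω => X t ω - X s ω) := (hX.meas t).sub (hX.meas s)
  have h1 : ∫ x, x ^ 2 ∂(gaussianReal 0 (t - s)) = (t:ℝ) - s := by
    have h2 := variance_id_gaussianReal (μ := 0) (v := t - s)
    rw [variance_eq_sub (memLp_id_gaussianReal 2)] at h2
    have h3 : ∫ x, id x ∂(gaussianReal 0 (t - s)) = 0 := integral_id_gaussianReal
    rw [h3, NNReal.coe_sub h] at h2
    simpa using h2
  rw [← law_incr hX h, integral_map h0.aemeasurable (by fun_prop)] at h1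
  exact h1

theorem isQV_X (hX : CBM P X) : IsQV P X (fun t _ => (t:ℝ)) := by
  intro t k τ hmono h0 hk hmesh
  rw [tendstoInMeasure_iff_norm]
  intro ε hε
  have hKK : 0 ≤ KK := variance_nonneg _ _
  -- variance bound
  have hmem : ∀ n i, MemLp (fun ω => (X (τ n (i + 1)) ω - X (τ n i) ω) ^ 2) 2 P := fun n i =>
    memLp_incr_sq hX (hmono n (Nat.le_succ i))
  have hvar : ∀ n, variance (∑ i ∈ Finset.range (k n),
      fun ω => (X (τ n (i + 1)) ω - X (τ n i) ω) ^ 2) P =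
      ∑ i ∈ Finset.range (k n), ((τ n (i + 1) : ℝ) - τ n i) ^ 2 * KK := by
    intro n
    rw [IndepFun.variance_sum (fun i _ => hmem n i)]
    · exact Finset.sum_congr rfl fun i _ => var_incr_sq hX (hmono n (Nat.le_succ i))
    · intro i _ j _ hij
      have h1 := (hX.pre.hasIndepIncrements.nat (hmono n)).indepFun hij
      exact h1.comp (φ := fun x : ℝ => x ^ 2) (ψ := fun x : ℝ => x ^ 2) (by fun_prop) (by fun_prop)
  have hmean : ∀ n, ∫ ω, (∑ i ∈ Finset.range (k n),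
      fun ω => (X (τ n (i + 1)) ω - X (τ n i) ω) ^ 2) ω ∂P = t := by
    intro n
    simp only [Finset.sum_apply]
    rw [integral_finsetSum _ (fun i _ => (hmem n i).integrable (by norm_num))]
    have : ∀ i ∈ Finset.range (k n), ∫ ω, (X (τ n (i + 1)) ω - X (τ n i) ω) ^ 2 ∂P =
        (τ n (i + 1) : ℝ) - τ n i := fun i _ => int_incr_sq hX (hmono n (Nat.le_succ i))
    rw [Finset.sum_congr rfl this, Finset.sum_range_sub (fun i => (τ n i : ℝ)), hk, h0]
    simp
  have hcheb : ∀ n, P {ω | ε ≤ ‖(∑ i ∈ Finset.range (k n),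
      (X (τ n (i + 1)) ω - X (τ n i) ω) ^ 2) - (t:ℝ)‖} ≤
      ENNReal.ofReal ((∑ i ∈ Finset.range (k n), ((τ n (i + 1) : ℝ) - τ n i) ^ 2 * KK) / ε ^ 2) := by
    intro n
    have h1 := meas_ge_le_variance_div_sq (μ := P) (X := ∑ i ∈ Finset.range (k n),
      fun ω => (X (τ n (i + 1)) ω - X (τ n i) ω) ^ 2)
      (memLp_finsetSum' _ fun i _ => hmem n i) hε
    rw [hvar n, hmean n] at h1
    simpa [Real.norm_eq_abs, Finset.sum_apply] using h1
  have hsum : Tendsto (fun n => (∑ i ∈ Finset.range (k n),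
      ((τ n (i + 1) : ℝ) - τ n i) ^ 2 * KK) / ε ^ 2) atTop (𝓝 0) := by
    rw [Metric.tendsto_atTop']
    intro δ hδ
    have hη : 0 < δ * ε ^ 2 / ((t:ℝ) * KK + 1) := by positivity
    obtain ⟨N, hN⟩ := eventually_atTop.1 (hmesh _ hη)
    refine ⟨N, fun n hn => ?_⟩
    have hnn : ∀ i, 0 ≤ (τ n (i + 1) : ℝ) - τ n i := fun i => by
      have : (τ n i : ℝ) ≤ τ n (i+1) := by exact_mod_cast hmono n (Nat.le_succ i)
      linarith
    have h1 : ∑ i ∈ Finset.range (k n), ((τ n (i + 1) : ℝ) - τ n i) ^ 2 * KK ≤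
        ∑ i ∈ Finset.range (k n), ((τ n (i + 1) : ℝ) - τ n i) *
          (δ * ε ^ 2 / ((t:ℝ) * KK + 1) * KK) := by
      refine Finset.sum_le_sum fun i hi => ?_
      have := (hN n hn.le i (Finset.mem_range.1 hi)).le
      have h2 : ((τ n (i + 1) : ℝ) - τ n i) ^ 2 ≤ ((τ n (i + 1) : ℝ) - τ n i) *
          (δ * ε ^ 2 / ((t:ℝ) * KK + 1)) := by
        rw [sq]
        exact mul_le_mul_of_nonneg_left this (hnn i)
      nlinarith
    rw [← Finset.sum_mul (Finset.range (k n)) (fun i => (τ n (i + 1) : ℝ) - τ n i),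
      Finset.sum_range_sub (fun i => (τ n i : ℝ)), hk, h0] at h1
    have h3 : 0 ≤ ∑ i ∈ Finset.range (k n), ((τ n (i + 1) : ℝ) - τ n i) ^ 2 * KK :=
      Finset.sum_nonneg fun i _ => by positivity
    rw [Real.dist_eq, sub_zero, abs_of_nonneg (by positivity), div_lt_iff₀ (by positivity)]
    refine lt_of_le_of_lt h1 ?_
    have h4 : ((t:ℝ) - (0:ℝ≥0)) * (δ * ε ^ 2 / ((t:ℝ) * KK + 1) * KK) =
        δ * ε ^ 2 * ((t:ℝ) * KK / ((t:ℝ) * KK + 1)) := by
      simp only [NNReal.coe_zero, sub_zero]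
      ring
    rw [h4]
    have h5 : (t:ℝ) * KK / ((t:ℝ) * KK + 1) < 1 := by
      rw [div_lt_one (by positivity)]
      linarith
    have h6 : 0 < δ * ε ^ 2 := by positivity
    nlinarith
  have hsum' := ENNReal.tendsto_ofReal hsum
  rw [ENNReal.ofReal_zero] at hsum'
  exact tendsto_of_tendsto_of_tendsto_of_le_of_le tendsto_const_nhds hsum' (fun _ => zero_le)
    hcheb

/-! ### Finite variation part -/

lemma hh_antitone {w : ℝ≥0 → ℝ} (hw : Continuous w) : Antitone (hh w) := by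
  intro s t hst
  by_cases hg : Good w
  · exact hh_anti hw hg hst
  · rw [hh_bad hw hg, hh_bad hw hg]

lemma continuous_AA {w : ℝ≥0 → ℝ} (hw : Continuous w) : Continuous (AA w) := by
  unfold AA
  exact (((continuous_hh hw).sub continuous_const).const_smul (2:ℝ)).add NNReal.continuous_coe

lemma continuous_NN {w : ℝ≥0 → ℝ} (hw : Continuous w) : Continuous (NN w) := by
  unfold NN
  exact hw.sub (continuous_AA hw)

/-- oscillation along grids -/
lemma osc {w : ℝ≥0 → ℝ} (hw : Continuous w) (t : ℝ≥0) {ε : ℝ} (hε : 0 < ε) :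
    ∃ δ : ℝ, 0 < δ ∧ ∀ a b : ℝ≥0, a ≤ b → b ≤ t → (b:ℝ) - a < δ → |w b - w a| < ε := by
  have h1 : UniformContinuousOn w (Icc 0 t) :=
    isCompact_Icc.uniformContinuousOn_of_continuous hw.continuousOn
  rw [Metric.uniformContinuousOn_iff] at h1
  obtain ⟨δ, hδ, h⟩ := h1 ε hε
  refine ⟨δ, hδ, fun a b hab hbt h2 => ?_⟩
  have h3 := h b ⟨zero_le, hbt⟩ a ⟨zero_le, hab.trans hbt⟩ (by
    rw [NNReal.dist_eq, abs_of_nonneg]
    · exact h2
    · have : (a:ℝ) ≤ b := by exact_mod_cast hab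
      linarith)
  rwa [Real.dist_eq] at h3

lemma abs_AA_sub {w : ℝ≥0 → ℝ} (hw : Continuous w) {a b : ℝ≥0} (hab : a ≤ b) :
    |AA w b - AA w a| ≤ (2 * (hh w a - hh w b) + ((b:ℝ) - a)) := by
  have h1 := hh_antitone hw hab
  have h2 : (a:ℝ) ≤ b := by exact_mod_cast hab
  unfold AA
  rw [abs_le]
  constructor <;> linarith

lemma rem_tendsto {w : ℝ≥0 → ℝ} (hw : Continuous w) (t : ℝ≥0) (k : ℕ → ℕ) (τ : ℕ → ℕ → ℝ≥0)
    (hmono : ∀ n, Monotone (τ n)) (h0 : ∀ n, τ n 0 = 0) (hk : ∀ n, τ n (k n) = t)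
    (hmesh : ∀ ε : ℝ, 0 < ε → ∀ᶠ n in atTop, ∀ i < k n, (τ n (i + 1) : ℝ) - τ n i < ε) :
    Tendsto (fun n => ∑ i ∈ Finset.range (k n),
      ((NN w (τ n (i + 1)) - NN w (τ n i)) ^ 2 - (w (τ n (i + 1)) - w (τ n i)) ^ 2))
      atTop (𝓝 0) := by
  set V : ℝ := 2 * (hh w 0 - hh w t) + t with hV
  have hV0 : 0 ≤ V := by
    have := hh_antitone hw (zero_le (a := t))
    have h2 : (0:ℝ) ≤ t := t.2
    rw [hV]
    linarith
  rw [Metric.tendsto_atTop']
  intro ε hε
  have hη : 0 < ε / (V + 1) := by positivity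
  obtain ⟨δ, hδ, hosc⟩ := osc (w := fun s => w s + NN w s) (hw.add (continuous_NN hw)) t hη
  obtain ⟨N, hN⟩ := eventually_atTop.1 (hmesh δ hδ)
  refine ⟨N, fun n hn => ?_⟩
  rw [Real.dist_eq, sub_zero]
  have hterm : ∀ i ∈ Finset.range (k n),
      |(NN w (τ n (i + 1)) - NN w (τ n i)) ^ 2 - (w (τ n (i + 1)) - w (τ n i)) ^ 2| ≤
      (2 * (hh w (τ n i) - hh w (τ n (i + 1))) + ((τ n (i + 1) : ℝ) - τ n i)) * (ε / (V + 1)) := by
    intro i hi
    have hi' := Finset.mem_range.1 hi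
    have h1 : τ n i ≤ τ n (i + 1) := hmono n (Nat.le_succ i)
    have h2 : τ n (i + 1) ≤ t := by
      rw [← hk n]
      exact hmono n hi'
    have h3 := hosc _ _ h1 h2 (hN n hn.le i hi')
    have h4 := abs_AA_sub hw h1
    have h5 : (NN w (τ n (i + 1)) - NN w (τ n i)) ^ 2 - (w (τ n (i + 1)) - w (τ n i)) ^ 2 =
        -(AA w (τ n (i + 1)) - AA w (τ n i)) *
          (w (τ n (i + 1)) + NN w (τ n (i + 1)) - (w (τ n i) + NN w (τ n i))) := by
      unfold NN
      ring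
    rw [h5, abs_mul, abs_neg]
    exact mul_le_mul h4 h3.le (abs_nonneg _) ((abs_nonneg _).trans h4)
  refine lt_of_le_of_lt ((Finset.abs_sum_le_sum_abs _ _).trans (Finset.sum_le_sum hterm)) ?_
  rw [← Finset.sum_mul]
  have hs : ∑ i ∈ Finset.range (k n),
      (2 * (hh w (τ n i) - hh w (τ n (i + 1))) + ((τ n (i + 1) : ℝ) - τ n i)) = V := by
    have h6 : ∀ i ∈ Finset.range (k n),
      (2 * (hh w (τ n i) - hh w (τ n (i + 1))) + ((τ n (i + 1) : ℝ) - τ n i)) =
      (fun i => -2 * hh w (τ n i) + (τ n i : ℝ)) (i + 1) -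
        (fun i => -2 * hh w (τ n i) + (τ n i : ℝ)) i := by
      intro i _
      simp only
      ring
    rw [Finset.sum_congr rfl h6, Finset.sum_range_sub (fun i => -2 * hh w (τ n i) + (τ n i : ℝ))]
    simp only [hk, h0, hV, NNReal.coe_zero]
    ring
  rw [hs]
  have h7 : V * (ε / (V + 1)) = ε * (V / (V + 1)) := by ring
  rw [h7]
  have h8 : V / (V + 1) < 1 := by
    rw [div_lt_one (by positivity)]
    linarith
  nlinarith

theorem isQV_N (hX : CBM P X) : IsQV P (fun t ω => NN (path X ω) t) (fun t _ => (t:ℝ)) := by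
  intro t k τ hmono h0 hk hmesh
  have h1 := isQV_X hX t k τ hmono h0 hk hmesh
  have h2 : TendstoInMeasure P (fun n ω => ∑ i ∈ Finset.range (k n),
      ((NN (path X ω) (τ n (i + 1)) - NN (path X ω) (τ n i)) ^ 2 -
        (X (τ n (i + 1)) ω - X (τ n i) ω) ^ 2)) atTop (fun _ => (0:ℝ)) := by
    refine tendstoInMeasure_of_tendsto_ae (fun n => ?_) (Eventually.of_forall fun ω =>
      rem_tendsto (hX.cont ω) t k τ hmono h0 hk hmesh)
    refine Measurable.aestronglyMeasurable ?_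
    refine Finset.measurable_sum _ fun i _ => ?_
    have hm : ∀ s, Measurable (fun ω => NN (path X ω) s) := fun s =>
      (measurable_NN s).comp hX.mpath
    exact (((hm _).sub (hm _)).pow_const 2).sub (((hX.meas _).sub (hX.meas _)).pow_const 2)
  rw [tendstoInMeasure_iff_norm] at h1 h2 ⊢
  intro ε hε
  have h3 := (h1 (ε / 2) (by positivity)).add (h2 (ε / 2) (by positivity))
  rw [add_zero] at h3
  refine tendsto_of_tendsto_of_tendsto_of_le_of_le tendsto_const_nhds h3 (fun _ => zero_le)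
    fun n => ?_
  refine (measure_mono ?_).trans (measure_union_le _ _)
  intro ω hω
  simp only [mem_setOf_eq, mem_union] at hω ⊢
  by_contra hcon
  push Not at hcon
  obtain ⟨ha, hb⟩ := hcon
  rw [Finset.sum_sub_distrib] at hb
  rw [Real.norm_eq_abs] at ha hb hω
  have := abs_lt.1 ha
  have h4 := abs_lt.1 hb
  apply absurd hω (not_le.2 _)
  rw [abs_lt]
  constructor <;> linarith [this.1, this.2, h4.1, h4.2]

end Pool.Agent.N704.RS
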