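import Pool.Agent.N704.RS.G

/-! The finite variation part is not absolutely continuous. -/

namespace Pool.Agent.N704.RS

open MeasureTheory ProbabilityTheory Set Filter Topology Pool.Agent.TH970
open scoped ENNReal NNReal

/-- The function `a` is absolutely continuous with respect to the nondecreasing function `q`
on compact intervals: for every `T` and `ε > 0` there is `δ > 0` such that for every finite
family of non-overlapping intervals `(l i, r i]` in `[0, T]` with `∑ (q (r i) - q (l i)) < δ` one has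
`∑ |a (r i) - a (l i)| < ε`. -/
def ACwrt (a q : ℝ≥0 → ℝ) : Prop :=
  ∀ T : ℝ≥0, ∀ ε : ℝ, 0 < ε → ∃ δ : ℝ, 0 < δ ∧ ∀ (n : ℕ) (l r : Fin n → ℝ≥0),
    (∀ i, l i ≤ r i) → (∀ i, r i ≤ T) →
    (∀ i j, i ≠ j → Disjoint (Set.Ioo (l i) (r i)) (Set.Ioo (l j) (r j))) →
    ∑ i, (q (r i) - q (l i)) < δ → ∑ i, |a (r i) - a (l i)| < ε

lemma ac_const {w : ℝ≥0 → ℝ} (hw : Continuous w) (hg : Good w)
    (hz : ∀ᵐ t : ℝ, hh w t.toNNReal ≠ yy w t.toNNReal)
    (hac : ACwrt (AA w) (fun t => (t:ℝ))) (T : ℝ≥0) : hh w 0 = hh w T := by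
  by_contra hne
  have hlt : 0 < hh w 0 - hh w T := by
    have := hh_anti hw hg (zero_le (a := T))
    exact sub_pos.2 (lt_of_le_of_ne this (Ne.symm hne))
  set ε := hh w 0 - hh w T with hε
  obtain ⟨δ, hδ, hac'⟩ := hac T ε hlt
  -- the open set
  have hnull : volume {t : ℝ | hh w t.toNNReal = yy w t.toNNReal} = 0 := by
    rw [ae_iff] at hz
    simpa using hz
  set η := min δ ε with hη
  have hη0 : 0 < η := lt_min hδ hlt
  obtain ⟨U, hZU, hUo, hU⟩ := Set.exists_isOpen_lt_of_lt {t : ℝ | hh w t.toNNReal = yy w t.toNNReal}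
    (ENNReal.ofReal η) (by rw [hnull]; exact ENNReal.ofReal_pos.2 hη0)
  -- the cover
  set c : Set (Set ℝ) := {O | IsOpen O ∧ (O ⊆ U ∨ ∀ x ∈ O, ∀ y ∈ O,
    hh w x.toNNReal = hh w y.toNNReal)} with hc
  have hcov : Icc (0:ℝ) T ⊆ ⋃₀ c := by
    intro t _
    by_cases htU : t ∈ U
    · exact mem_sUnion.2 ⟨U, ⟨hUo, Or.inl subset_rfl⟩, htU⟩
    · have h1 : yy w t.toNNReal < hh w t.toNNReal := by
        refine lt_of_le_of_ne (le_hh hw hg le_rfl) fun h => htU (hZU ?_)
        simp [h]
      obtain ⟨d, hd, hd'⟩ := hh_locconst hw h1 hg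
      refine mem_sUnion.2 ⟨Metric.ball t d, ⟨Metric.isOpen_ball, Or.inr fun x hx y hy => ?_⟩,
        Metric.mem_ball_self hd⟩
      have h2 : ∀ x ∈ Metric.ball t d, hh w x.toNNReal = hh w t.toNNReal := fun x hx => by
        apply hd'
        refine lt_of_le_of_lt ?_ (Metric.mem_ball.1 hx)
        have := Real.lipschitzWith_toNNReal.dist_le_mul x t
        simpa using this
      rw [h2 x hx, h2 y hy]
  obtain ⟨d, hd, hleb⟩ := lebesgue_number_lemma_of_metric_sUnion (isCompact_Icc (a := (0:ℝ)) (b := T))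
    (fun O hO => hO.1) hcov
  obtain ⟨n, hn⟩ := exists_nat_gt ((T:ℝ) / d)
  have hmesh : (T:ℝ) / ((n:ℝ) + 1) < d := by
    have hn1 : (0:ℝ) < (n:ℝ) + 1 := by positivity
    rw [div_lt_iff₀ hn1]
    rw [div_lt_iff₀ hd] at hn
    nlinarith
  classical
  -- types
  set Ut : ℕ → Prop := fun k => Ioo (gr T n k : ℝ) (gr T n (k + 1)) ⊆ U with hUt
  have hgm := gr_mono T n
  have hstep : ∀ k, k < n + 1 → ¬ Ut k → hh w (gr T n k) = hh w (gr T n (k + 1)) := by
    intro k hk hnU
    have h1 : (gr T n k : ℝ) ∈ Icc (0:ℝ) T := by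
      refine ⟨NNReal.coe_nonneg _, ?_⟩
      have : gr T n k ≤ gr T n (n + 1) := hgm hk.le
      rw [gr_last] at this
      exact_mod_cast this
    obtain ⟨O, ⟨hOo, hO⟩, hball⟩ := hleb _ h1
    have hin : ∀ x, (gr T n k : ℝ) ≤ x → x ≤ gr T n (k + 1) → x ∈ O := by
      intro x h2 h3
      apply hball
      rw [Metric.mem_ball, Real.dist_eq, abs_of_nonneg (by linarith)]
      rw [gr_succ] at h3
      linarith
    rcases hO with hO | hO
    · exact absurd (fun x hx => hO (hin x hx.1.le hx.2.le)) hnU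
    · have h2 := hO _ (hin _ le_rfl (by exact_mod_cast hgm (Nat.le_succ k))) _
        (hin _ (by exact_mod_cast hgm (Nat.le_succ k)) le_rfl)
      simpa using h2
  -- the family
  set l : Fin (n + 1) → ℝ≥0 := fun k => gr T n k with hl
  set r : Fin (n + 1) → ℝ≥0 := fun k => if Ut k then gr T n (k + 1) else gr T n k with hr
  have hlr : ∀ i, l i ≤ r i := by
    intro i
    simp only [hl, hr]
    split_ifs
    · exact hgm (Nat.le_succ _)
    · exact le_rfl
  have hrs : ∀ i : Fin (n + 1), r i ≤ gr T n (i + 1) := by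
    intro i
    simp only [hr]
    split_ifs
    · exact le_rfl
    · exact hgm (Nat.le_succ _)
  have hrT : ∀ i, r i ≤ T := by
    intro i
    refine (hrs i).trans ?_
    have : gr T n (i + 1) ≤ gr T n (n + 1) := hgm i.2
    rwa [gr_last] at this
  have hdisj : ∀ i j, i ≠ j → Disjoint (Set.Ioo (l i) (r i)) (Set.Ioo (l j) (r j)) := by
    have key : ∀ i j : Fin (n + 1), i < j →
        Disjoint (Set.Ioo (l i) (r i)) (Set.Ioo (l j) (r j)) := by
      intro i j hij
      rw [Set.disjoint_left]
      rintro x ⟨_, hx1⟩ ⟨hx2, _⟩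
      have h1 : gr T n (i + 1) ≤ gr T n j := hgm hij
      exact absurd (lt_of_lt_of_le hx1 ((hrs i).trans h1)) (not_lt.2 hx2.le)
    intro i j hij
    rcases lt_or_gt_of_ne hij with h | h
    · exact key i j h
    · exact (key j i h).symm
  -- the total length
  have hlen : ∑ i, ((r i : ℝ) - l i) < η := by
    have h1 : ENNReal.ofReal (∑ i, ((r i : ℝ) - l i)) ≤ volume U := by
      rw [ENNReal.ofReal_sum_of_nonneg fun i _ => sub_nonneg.2 (by exact_mod_cast hlr i)]
      have h2 : ∀ i, ENNReal.ofReal ((r i : ℝ) - l i) = volume (Ioo (l i : ℝ) (r i)) := fun i => by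
        rw [Real.volume_Ioo]
      simp_rw [h2]
      rw [← measure_biUnion_finset]
      · apply measure_mono
        refine iUnion₂_subset fun i _ => ?_
        by_cases hi : Ut i
        · have : r i = gr T n (i + 1) := by simp only [hr, hi, if_true]
          rw [this]
          exact hi
        · have : r i = l i := by simp only [hr, hl, hi, if_false]
          rw [this, Ioo_self]
          exact empty_subset _
      · intro i _ j _ hij
        have h3 := hdisj i j hij
        rw [Function.onFun, Set.disjoint_left] at *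
        rintro x ⟨hx1, hx2⟩ ⟨hx3, hx4⟩
        have hx0 : 0 ≤ x := (NNReal.coe_nonneg _).trans hx1.le
        exact h3 (a := ⟨x, hx0⟩) ⟨by exact_mod_cast hx1, by exact_mod_cast hx2⟩
          ⟨by exact_mod_cast hx3, by exact_mod_cast hx4⟩
      · exact fun i _ => measurableSet_Ioo
    have h2 := lt_of_le_of_lt h1 hU
    exact (ENNReal.ofReal_lt_ofReal_iff hη0).1 h2
  have h1 := hac' (n + 1) l r hlr hrT hdisj (hlen.trans_le (min_le_left _ _))
  -- comparison
  have h2 : ∀ i : Fin (n + 1), 2 * (hh w (gr T n i) - hh w (gr T n (i + 1))) ≤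
      |AA w (r i) - AA w (l i)| + ((r i : ℝ) - l i) := by
    intro i
    have h3 : hh w (gr T n i) - hh w (gr T n (i + 1)) = hh w (l i) - hh w (r i) := by
      by_cases hi : Ut i
      · have : r i = gr T n (i + 1) := by simp only [hr, hi, if_true]
        rw [this]
      · have : r i = l i := by simp only [hr, hl, hi, if_false]
        rw [this, sub_self, hstep i i.2 hi, sub_self]
    rw [h3]
    have h4 : 2 * (hh w (l i) - hh w (r i)) = -(AA w (r i) - AA w (l i)) + ((r i : ℝ) - l i) := by
      unfold AA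
      ring
    rw [h4]
    linarith [neg_abs_le (AA w (r i) - AA w (l i))]
  have h5 := Finset.sum_le_sum fun i (_ : i ∈ (Finset.univ : Finset (Fin (n + 1)))) => h2 i
  rw [← Finset.mul_sum, Finset.sum_add_distrib] at h5
  have h6 : ∑ i : Fin (n + 1), (hh w (gr T n i) - hh w (gr T n (i + 1))) = ε := by
    rw [Fin.sum_univ_eq_sum_range (fun i => hh w (gr T n i) - hh w (gr T n (i + 1)))]
    rw [Finset.sum_range_sub' (fun i => hh w (gr T n i))]
    rw [gr_zero, gr_last]
  rw [h6] at h5
  have h7 : ∑ i, ((r i : ℝ) - l i) < ε := hlen.trans_le (min_le_right _ _)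
  linarith

variable {Ω : Type*} [mΩ : MeasurableSpace Ω] {P : Measure Ω} [IsProbabilityMeasure P]
  {X : ℝ≥0 → Ω → ℝ}

lemma contact_null (hX : CBM P X) (t : ℝ≥0) : ∀ᵐ ω ∂P, hh (path X ω) t ≠ yy (path X ω) t := by
  set S : Set (ℝ≥0 → ℝ) := {w | hh w t = yy w t} with hS
  have hSm : MeasurableSet S := measurableSet_eq_fun (measurable_hh t) (measurable_yy t)
  have h0 : P {ω | hh (path X ω) 0 ≤ 0} = 0 := by
    have h1 := prob_hh_gt hX (le_refl (0:ℝ))
    rw [neg_zero, Real.exp_zero] at h1
    have h2 : {ω | hh (path X ω) 0 ≤ 0} = {ω | 0 < hh (path X ω) 0}ᶜ := by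
      ext ω
      simp
    rw [h2]
    have hm : MeasurableSet {ω | 0 < hh (path X ω) 0} := measurableSet_lt measurable_const (mH hX 0)
    rw [prob_compl_eq_zero_iff hm]
    have h3 := ofReal_measureReal (μ := P) (s := {ω | 0 < hh (path X ω) 0})
    rw [h1] at h3
    simpa using h3.symm
  have h1 : P.map (path X) S = 0 := by
    rw [← map_cat hX t, Measure.map_apply (measurable_catX hX t) hSm,
      Measure.measure_prod_null ((measurable_catX hX t) hSm)]
    refine Eventually.of_forall fun ω => ?_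
    simp only [Pi.zero_apply]
    refine measure_mono_null_ae ?_ h0
    filter_upwards [ae_good hX] with ω' hω' hmem
    have h2 : hh (cat t (path X ω) (path X ω')) t = yy (cat t (path X ω) (path X ω')) t := hmem
    have h3 := hh_cat (b := t) (w := path X ω) hω' 0
    have h4 := yy_cat_left (b := t) (s := t) (w := path X ω) (hX.path_zero ω') le_rfl
    rw [add_zero] at h3
    rw [h3, h4] at h2
    show hh (path X ω') 0 ≤ 0
    linarith
  rw [Measure.map_apply hX.mpath hSm] at h1
  rw [ae_iff]
  refine measure_mono_null (fun ω hω => ?_) h1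
  simpa [hS] using hω

lemma contact_null' (hX : CBM P X) :
    ∀ᵐ ω ∂P, ∀ᵐ t : ℝ, hh (path X ω) t.toNNReal ≠ yy (path X ω) t.toNNReal := by
  have hm : MeasurableSet {x : ℝ × Ω | hh (path X x.2) x.1.toNNReal ≠
      yy (path X x.2) x.1.toNNReal} := by
    have h1 : Measurable (Function.uncurry fun (t : ℝ) (ω : Ω) => hh (path X ω) t.toNNReal) :=
      measurable_uncurry_of_continuous_of_measurable
        (fun ω => (continuous_hh (hX.cont ω)).comp continuous_real_toNNReal) (fun t => mH hX _)
    have h2 : Measurable (Function.uncurry fun (t : ℝ) (ω : Ω) => yy (path X ω) t.toNNReal) :=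
      measurable_uncurry_of_continuous_of_measurable
        (fun ω => (continuous_yy (hX.cont ω)).comp continuous_real_toNNReal)
        (fun t => (measurable_yy _).comp hX.mpath)
    exact (measurableSet_eq_fun h1 h2).compl
  exact (Measure.ae_ae_comm (μ := (volume : Measure ℝ)) (ν := P) hm).1
    (Eventually.of_forall fun t => contact_null hX _)

lemma E_drop (hX : CBM P X) (T : ℝ≥0) :
    ∫ ω, (hh (path X ω) 0 - hh (path X ω) T) ∂P = (T:ℝ) / 2 := by
  have h1 := setint_Phi hX (zero_le (a := T)) (Λ := univ) MeasurableSet.univ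
  rw [setIntegral_univ] at h1
  have h2 : ∀ ω, NN (path X ω) T - NN (path X ω) 0 =
      X T ω + (2 * (hh (path X ω) 0 - hh (path X ω) T) - T) := by
    intro ω
    unfold NN AA
    have : path X ω 0 = 0 := hX.path_zero ω
    rw [this]
    have h3 : path X ω T = X T ω := rfl
    rw [h3]
    simp only [NNReal.coe_zero]
    ring
  simp_rw [h2] at h1
  have hi : Integrable (fun ω => hh (path X ω) 0 - hh (path X ω) T) P :=
    (int_H hX 0).sub (int_H hX T)
  have hi2 : Integrable (fun ω => 2 * (hh (path X ω) 0 - hh (path X ω) T)) P := hi.const_mul 2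
  have hi3 : Integrable (fun ω => 2 * (hh (path X ω) 0 - hh (path X ω) T) - (T:ℝ)) P :=
    hi2.sub (integrable_const _)
  rw [integral_add (hX.pre.integrable_eval T) hi3,
    hX.pre.integral_eval, integral_sub hi2 (integrable_const _), integral_const_mul] at h1
  simp only [integral_const, probReal_univ, smul_eq_mul, one_mul, zero_add] at h1
  linarith

theorem not_ac (hX : CBM P X) :
    ¬ ∀ᵐ ω ∂P, ACwrt (fun t => AA (path X ω) t) (fun t => (t:ℝ)) := by
  intro h
  have h1 : ∀ᵐ ω ∂P, hh (path X ω) 0 - hh (path X ω) 1 = 0 := by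
    filter_upwards [h, contact_null' hX, ae_good hX] with ω h1 h2 h3
    exact sub_eq_zero.2 (ac_const (hX.cont ω) h3 h2 h1 1)
  have h2 := E_drop hX 1
  rw [integral_congr_ae h1] at h2
  norm_num at h2

end Pool.Agent.N704.RS
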