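import Pool.Agent.N704.RS.H
import Pool.Agent.Helper41.BS.ExistBM

/-! Almost sure failure of absolute continuity; existence of the Brownian motion. -/

namespace Pool.Agent.N704.RS

open MeasureTheory ProbabilityTheory Set Filter Topology Pool.Agent.TH970
open scoped ENNReal NNReal

section
variable {Ω : Type*} [mΩ : MeasurableSpace Ω] {P : Measure Ω} [IsProbabilityMeasure P]
  {X : ℝ≥0 → Ω → ℝ}

lemma prob_hh_late (hX : CBM P X) {T : ℝ≥0} (hT : 0 < T) :
    P {ω | 0 ≤ hh (path X ω) T} ≤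
      ENNReal.ofReal (16 / T) + ENNReal.ofReal (Real.exp (-((T:ℝ) / 4))) := by
  have hT' : (0:ℝ) < T := by exact_mod_cast hT
  set S : Set (ℝ≥0 → ℝ) := {w | 0 ≤ hh w T} with hS
  have hSm : MeasurableSet S := measurableSet_le measurable_const (measurable_hh T)
  have h1 : P {ω | 0 ≤ hh (path X ω) T} = P.map (path X) S := by
    rw [Measure.map_apply hX.mpath hSm]
    rfl
  rw [h1, ← map_cat hX T, Measure.map_apply (measurable_catX hX T) hSm]
  have hg : ∀ᵐ q ∂(P.prod P), Good (path X q.2) := by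
    have h2 := ae_good hX
    exact (Measure.quasiMeasurePreserving_snd (μ := P) (ν := P)).ae h2
  have h2 : (P.prod P) ((fun q : Ω × Ω => cat T (path X q.1) (path X q.2)) ⁻¹' S) ≤
      (P.prod P) (({ω | (T:ℝ) / 4 ≤ |X T ω|} ×ˢ univ) ∪
        (univ ×ˢ {ω | (T:ℝ) / 4 ≤ hh (path X ω) 0})) := by
    refine measure_mono_ae ?_
    filter_upwards [hg] with q hq hmem
    have h3 : 0 ≤ hh (cat T (path X q.1) (path X q.2)) T := hmem
    have h4 := hh_cat (b := T) (w := path X q.1) hq 0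
    rw [add_zero] at h4
    rw [h4] at h3
    unfold yy at h3
    have h5 : path X q.1 T = X T q.1 := rfl
    rw [h5] at h3
    by_cases hc : (T:ℝ) / 4 ≤ |X T q.1|
    · exact Or.inl ⟨hc, mem_univ _⟩
    · refine Or.inr ⟨mem_univ _, ?_⟩
      push Not at hc
      have h6 := (abs_lt.1 hc).2
      show (T:ℝ) / 4 ≤ hh (path X q.2) 0
      linarith
  refine h2.trans ((measure_union_le _ _).trans ?_)
  rw [Measure.prod_prod, Measure.prod_prod]
  simp only [measure_univ, mul_one, one_mul]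
  refine add_le_add ?_ ?_
  · rw [← ofReal_measureReal]
    exact ENNReal.ofReal_le_ofReal (cheb hX hT)
  · rw [← ofReal_measureReal, prob_hh_ge hX (by positivity)]

theorem ae_not_ac (hX : CBM P X) :
    ∀ᵐ ω ∂P, ¬ ACwrt (fun t => AA (path X ω) t) (fun t => (t:ℝ)) := by
  have h1 : P {ω | ∀ n : ℕ, 0 ≤ hh (path X ω) ((n:ℝ≥0) + 1)} = 0 := by
    have hb : ∀ n : ℕ, P {ω | ∀ n : ℕ, 0 ≤ hh (path X ω) ((n:ℝ≥0) + 1)} ≤
        ENNReal.ofReal (16 / ((n:ℝ) + 1)) + ENNReal.ofReal (Real.exp (-(((n:ℝ) + 1) / 4))) := by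
      intro n
      have h2 := prob_hh_late hX (T := (n:ℝ≥0) + 1) (by positivity)
      have h3 : P {ω | ∀ n : ℕ, 0 ≤ hh (path X ω) ((n:ℝ≥0) + 1)} ≤
          P {ω | 0 ≤ hh (path X ω) ((n:ℝ≥0) + 1)} := measure_mono fun ω hω => hω n
      refine h3.trans (h2.trans (le_of_eq ?_))
      push_cast
      rfl
    have hlim : Tendsto (fun n : ℕ => ENNReal.ofReal (16 / ((n:ℝ) + 1)) +
        ENNReal.ofReal (Real.exp (-(((n:ℝ) + 1) / 4)))) atTop (𝓝 0) := by
      have hat : Tendsto (fun n : ℕ => (n:ℝ) + 1) atTop atTop :=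
        tendsto_atTop_add_const_right _ _ tendsto_natCast_atTop_atTop
      have ha : Tendsto (fun n : ℕ => 16 / ((n:ℝ) + 1)) atTop (𝓝 0) :=
        tendsto_const_nhds.div_atTop hat
      have hb : Tendsto (fun n : ℕ => Real.exp (-(((n:ℝ) + 1) / 4))) atTop (𝓝 0) :=
        Real.tendsto_exp_neg_atTop_nhds_zero.comp (hat.atTop_div_const (by norm_num))
      have := (ENNReal.tendsto_ofReal ha).add (ENNReal.tendsto_ofReal hb)
      simpa using this
    exact le_antisymm (ge_of_tendsto' hlim hb) zero_le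
  have h2 : ∀ᵐ ω ∂P, ¬ ∀ n : ℕ, 0 ≤ hh (path X ω) ((n:ℝ≥0) + 1) := by
    rw [ae_iff]
    simpa using h1
  filter_upwards [h2, contact_null' hX, ae_good hX, hh_nonneg hX] with ω h1 h2 h3 h4 h5
  exact h1 fun n => (ac_const (hX.cont ω) h3 h2 h5 ((n:ℝ≥0) + 1)) ▸ h4

end

/-- every Brownian motion has a version all of whose paths are continuous and start at `0`. -/
lemma exists_CBM {Ω : Type*} [mΩ : MeasurableSpace Ω] {P : Measure Ω} [IsProbabilityMeasure P]
    {X : ℝ≥0 → Ω → ℝ} (hX : IsBrownianReal X P) (hm : ∀ t, Measurable (X t)) :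
    ∃ X' : ℝ≥0 → Ω → ℝ, CBM P X' := by
  classical
  have h1 : ∀ᵐ ω ∂P, Continuous (path X ω) ∧ X 0 ω = 0 := by
    filter_upwards [hX.cont, hX.toIsPreBrownianReal.eval_zero_ae_eq_zero] with ω h1 h2
    exact ⟨h1, h2⟩
  obtain ⟨N, hN1, hN2, hN3⟩ := exists_measurable_superset_of_null (ae_iff.mp h1)
  set X' : ℝ≥0 → Ω → ℝ := fun t ω => if ω ∈ N then 0 else X t ω with hX'
  have hgood : ∀ ω, ω ∉ N → Continuous (path X ω) ∧ X 0 ω = 0 := by
    intro ω hω
    by_contra hcon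
    exact hω (hN1 hcon)
  have hae : ∀ᵐ ω ∂P, ω ∉ N := by
    rw [ae_iff]
    simpa using hN3
  refine ⟨X', ⟨fun t => ?_, fun ω => ?_, fun ω => ?_, ?_⟩⟩
  · exact Measurable.ite hN2 measurable_const (hm t)
  · by_cases hω : ω ∈ N
    · have : path X' ω = fun _ => 0 := by
        ext s
        simp [path, hX', hω]
      rw [this]
      exact continuous_const
    · have : path X' ω = path X ω := by
        ext s
        simp [path, hX', hω]
      rw [this]
      exact (hgood ω hω).1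
  · by_cases hω : ω ∈ N
    · simp [hX', hω]
    · simp only [hX', hω, if_false]
      exact (hgood ω hω).2
  · refine hX.toIsPreBrownianReal.congr fun t => ?_
    filter_upwards [hae] with ω hω
    simp [hX', hω]

theorem exists_CBM_complete : ∃ (Ω : Type) (mΩ : MeasurableSpace Ω) (P : Measure Ω),
    IsProbabilityMeasure P ∧ P.IsComplete ∧ ∃ X : ℝ≥0 → Ω → ℝ, CBM P X := by
  obtain ⟨Ω, mΩ, P, hP, hc, B, hB⟩ := Pool.Agent.Helper41.BS.exists_bm2
  obtain ⟨X, hX⟩ := exists_CBM (hB.bm 0) (hB.meas 0)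
  exact ⟨Ω, mΩ, P, hP, hc, X, hX⟩

end Pool.Agent.N704.RS
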